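import Pool.Agent.H69.CP.CntA
import Pool.Agent.H95.FL.Main

/-!
[H69 CP BSH] Rough numbers which are not cyclic in a short interval `(x, x+y]`: at most
`(3 + 2 log S) (2 y / w + S)`, `S = √(2x)`. Hyperbola method: such a number is divisible by `p^2` or equal to `r p (1 + k p)` with
`p > w`, and `r` or `k` is at most `S / p`.
-/

namespace Pool.Agent.H69.CP

open Finset Classical

theorem class_card (x y d a : ℕ) (hd : 0 < d) :
    (((Ioc x (x + y)).filter fun m => m % d = a % d).card : ℝ) ≤ y / d + 1 := by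
  have h := Pool.Agent.H95.FL.ud_Ioc x (x + y) (by omega) d a hd
  rw [sum_const, nsmul_eq_mul, mul_one] at h
  have h2 := (abs_le.1 h).2
  push_cast at h2
  have h3 : ((x : ℝ) + y - x) / d = y / d := by ring
  rw [h3] at h2
  linarith

theorem dvd_card (x y d : ℕ) (hd : 0 < d) :
    (((Ioc x (x + y)).filter fun m => d ∣ m).card : ℝ) ≤ y / d + 1 := by
  have h := class_card x y d 0 hd
  have e : (Ioc x (x + y)).filter (fun m => d ∣ m) = (Ioc x (x + y)).filter (fun m => m % d = 0 % d) := by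
    apply filter_congr
    intro m _
    rw [Nat.zero_mod]
    exact Nat.dvd_iff_mod_eq_zero
  rw [e]
  exact h

/-- the three kinds of bad numbers for one `p` -/
noncomputable def Bp (x y S p : ℕ) : Finset ℕ :=
  ((Ioc x (x + y)).filter fun m => p ^ 2 ∣ m) ∪
    (((Icc 1 (S / p)).biUnion fun r => (Ioc x (x + y)).filter fun m => m % (r * p ^ 2) = (r * p) % (r * p ^ 2)) ∪
      ((Icc 1 (S / p)).biUnion fun k => (Ioc x (x + y)).filter fun m => p * (1 + k * p) ∣ m))

theorem bad_sub (x y : ℕ) (w : ℝ) (hw : 1 ≤ w) (hyx : y ≤ x) :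
    ((Ioc x (x + y)).filter fun m => ¬ CY.IsCyclicNumber m ∧ Rough w m) ⊆
      (Ioc ⌊w⌋₊ (Nat.sqrt (2 * x))).biUnion fun p => Bp x y (Nat.sqrt (2 * x)) p := by
  intro m hm
  rw [mem_filter, mem_Ioc] at hm
  obtain ⟨⟨hm1, hm2⟩, hc, hr⟩ := hm
  obtain ⟨p, hp, hpm, h⟩ := A.dvd_totient m (by omega) hc
  have hwp : w < p := hr p hp hpm
  have hp0 : 0 < p := hp.pos
  set S := Nat.sqrt (2 * x) with hS
  have hSlt : 2 * x < (S + 1) * (S + 1) := Nat.lt_succ_sqrt (2 * x)
  have hm0 : 0 < m := by omega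
  have hfl : ⌊w⌋₊ < p := (Nat.floor_lt (by linarith)).2 hwp
  rw [mem_biUnion]
  rcases h with h | ⟨q, hq, hqp, hpq⟩
  · refine ⟨p, mem_Ioc.2 ⟨hfl, ?_⟩, ?_⟩
    · have h1 := Nat.le_of_dvd hm0 h
      rw [hS, Nat.le_sqrt]
      nlinarith
    · unfold Bp
      rw [mem_union]
      left
      rw [mem_filter, mem_Ioc]
      exact ⟨⟨hm1, hm2⟩, h⟩
  · -- q = 1 + k p
    obtain ⟨r, hrm⟩ := hpq
    set k := q / p with hk
    have hqk : q = 1 + k * p := by
      have := Nat.div_add_mod q p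
      rw [hqp] at this
      rw [hk]
      linarith
    have hk1 : 1 ≤ k := by
      rcases Nat.eq_zero_or_pos k with h0 | h0
      · rw [h0] at hqk
        have := hq.two_le
        omega
      · exact h0
    have hr1 : 1 ≤ r := by
      rcases Nat.eq_zero_or_pos r with h0 | h0
      · rw [h0] at hrm
        omega
      · exact h0
    have hm3 : m = r * p * (1 + k * p) := by
      rw [hrm, hqk]; ring
    have hlt : (r * p) * (k * p) < m := by
      rw [hm3]
      have : 0 < r * p := Nat.mul_pos (by omega) hp0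
      nlinarith
    have hor : r ≤ S / p ∨ k ≤ S / p := by
      by_contra hcon
      push Not at hcon
      have h1 : S < r * p := by
        have := (Nat.div_lt_iff_lt_mul hp0).1 hcon.1
        exact this
      have h2 : S < k * p := by
        have := (Nat.div_lt_iff_lt_mul hp0).1 hcon.2
        exact this
      have h3 : (S + 1) * (S + 1) ≤ (r * p) * (k * p) := Nat.mul_le_mul h1 h2
      omega
    refine ⟨p, mem_Ioc.2 ⟨hfl, ?_⟩, ?_⟩
    · rw [hS, Nat.le_sqrt]
      have h1 : p * p ≤ (r * p) * (k * p) := by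
        have h2 : p ≤ r * p := Nat.le_mul_of_pos_left p (by omega)
        have h3 : p ≤ k * p := Nat.le_mul_of_pos_left p (by omega)
        exact Nat.mul_le_mul h2 h3
      omega
    · unfold Bp
      rw [mem_union, mem_union]
      right
      rcases hor with h1 | h1
      · left
        rw [mem_biUnion]
        refine ⟨r, mem_Icc.2 ⟨hr1, h1⟩, ?_⟩
        rw [mem_filter, mem_Ioc]
        refine ⟨⟨hm1, hm2⟩, ?_⟩
        have : m = r * p + r * p ^ 2 * k := by rw [hm3]; ring
        rw [this, Nat.add_mul_mod_self_left]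
      · right
        rw [mem_biUnion]
        refine ⟨k, mem_Icc.2 ⟨hk1, h1⟩, ?_⟩
        rw [mem_filter, mem_Ioc]
        refine ⟨⟨hm1, hm2⟩, ⟨r, ?_⟩⟩
        rw [hm3]; ring

theorem harm (n : ℕ) : ∑ r ∈ Icc 1 n, 1 / (r : ℝ) ≤ 1 + Real.log n := by
  have h := harmonic_le_one_add_log n
  have e : ((harmonic n : ℚ) : ℝ) = ∑ r ∈ Icc 1 n, 1 / (r : ℝ) := by
    rw [harmonic_eq_sum_Icc]
    push_cast
    simp
  rw [← e]
  exact h

theorem Bp_card (x y S p : ℕ) (hp : 0 < p) (hS : 1 ≤ S) :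
    ((Bp x y S p).card : ℝ) ≤ (3 + 2 * Real.log S) * (y / (p : ℝ) ^ 2) + (1 + 2 * (S / (p : ℝ))) := by
  have hpR : (0 : ℝ) < p := by exact_mod_cast hp
  have hlogS : 0 ≤ Real.log S := Real.log_nonneg (by exact_mod_cast hS)
  have hH : ∑ r ∈ Icc 1 (S / p), 1 / (r : ℝ) ≤ 1 + Real.log S := by
    refine (harm _).trans ?_
    rcases Nat.eq_zero_or_pos (S / p) with h0 | h0
    · rw [h0]; simp; exact hlogS
    · have : Real.log ((S / p : ℕ) : ℝ) ≤ Real.log S :=
        Real.log_le_log (by exact_mod_cast h0) (by exact_mod_cast Nat.div_le_self S p)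
      linarith
  have hSp : ((S / p : ℕ) : ℝ) ≤ S / p := Nat.cast_div_le
  have h1 : (((Ioc x (x + y)).filter fun m => p ^ 2 ∣ m).card : ℝ) ≤ y / (p : ℝ) ^ 2 + 1 := by
    have := dvd_card x y (p ^ 2) (by positivity)
    push_cast at this
    exact this
  have h2 : (((Icc 1 (S / p)).biUnion fun r => (Ioc x (x + y)).filter
      fun m => m % (r * p ^ 2) = (r * p) % (r * p ^ 2)).card : ℝ) ≤
      (1 + Real.log S) * (y / (p : ℝ) ^ 2) + S / p := by
    calc (((Icc 1 (S / p)).biUnion fun r => (Ioc x (x + y)).filter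
          fun m => m % (r * p ^ 2) = (r * p) % (r * p ^ 2)).card : ℝ)
        ≤ ((∑ r ∈ Icc 1 (S / p), ((Ioc x (x + y)).filter
          fun m => m % (r * p ^ 2) = (r * p) % (r * p ^ 2)).card : ℕ) : ℝ) := by
          exact_mod_cast card_biUnion_le
      _ ≤ ∑ r ∈ Icc 1 (S / p), (1 / (r : ℝ) * (y / (p : ℝ) ^ 2) + 1) := by
          push_cast
          refine sum_le_sum fun r hr => ?_
          have hr1 : 1 ≤ r := (mem_Icc.1 hr).1
          have := class_card x y (r * p ^ 2) (r * p) (by positivity)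
          refine this.trans (le_of_eq ?_)
          push_cast
          have : (r : ℝ) ≠ 0 := by positivity
          field_simp
      _ = (∑ r ∈ Icc 1 (S / p), 1 / (r : ℝ)) * (y / (p : ℝ) ^ 2) + ((S / p : ℕ) : ℝ) := by
          rw [sum_add_distrib, ← sum_mul]
          simp
      _ ≤ (1 + Real.log S) * (y / (p : ℝ) ^ 2) + S / p := by
          gcongr
  have h3 : (((Icc 1 (S / p)).biUnion fun k => (Ioc x (x + y)).filter fun m => p * (1 + k * p) ∣ m).card : ℝ) ≤
      (1 + Real.log S) * (y / (p : ℝ) ^ 2) + S / p := by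
    calc (((Icc 1 (S / p)).biUnion fun k => (Ioc x (x + y)).filter fun m => p * (1 + k * p) ∣ m).card : ℝ)
        ≤ ((∑ k ∈ Icc 1 (S / p), ((Ioc x (x + y)).filter fun m => p * (1 + k * p) ∣ m).card : ℕ) : ℝ) := by
          exact_mod_cast card_biUnion_le
      _ ≤ ∑ k ∈ Icc 1 (S / p), (1 / (k : ℝ) * (y / (p : ℝ) ^ 2) + 1) := by
          push_cast
          refine sum_le_sum fun k hk => ?_
          have hk1 : 1 ≤ k := (mem_Icc.1 hk).1
          have hk0 : (0 : ℝ) < k := by exact_mod_cast hk1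
          have := dvd_card x y (p * (1 + k * p)) (by positivity)
          refine this.trans ?_
          push_cast
          have h5 : (y : ℝ) / (p * (1 + k * p)) ≤ 1 / k * (y / (p : ℝ) ^ 2) := by
            rw [div_mul_div_comm, one_mul]
            apply div_le_div_of_nonneg_left (by positivity) (by positivity)
            nlinarith
          linarith
      _ = (∑ r ∈ Icc 1 (S / p), 1 / (r : ℝ)) * (y / (p : ℝ) ^ 2) + ((S / p : ℕ) : ℝ) := by
          rw [sum_add_distrib, ← sum_mul]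
          simp
      _ ≤ (1 + Real.log S) * (y / (p : ℝ) ^ 2) + S / p := by
          gcongr
  have h4 : ((Bp x y S p).card : ℝ) ≤
      (((Ioc x (x + y)).filter fun m => p ^ 2 ∣ m).card : ℝ) +
      ((((Icc 1 (S / p)).biUnion fun r => (Ioc x (x + y)).filter
        fun m => m % (r * p ^ 2) = (r * p) % (r * p ^ 2)).card : ℝ) +
      (((Icc 1 (S / p)).biUnion fun k => (Ioc x (x + y)).filter fun m => p * (1 + k * p) ∣ m).card : ℝ)) := by
    unfold Bp
    have a1 := card_union_le ((Ioc x (x + y)).filter fun m => p ^ 2 ∣ m)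
      (((Icc 1 (S / p)).biUnion fun r => (Ioc x (x + y)).filter fun m => m % (r * p ^ 2) = (r * p) % (r * p ^ 2)) ∪
      ((Icc 1 (S / p)).biUnion fun k => (Ioc x (x + y)).filter fun m => p * (1 + k * p) ∣ m))
    have a2 := card_union_le
      ((Icc 1 (S / p)).biUnion fun r => (Ioc x (x + y)).filter fun m => m % (r * p ^ 2) = (r * p) % (r * p ^ 2))
      ((Icc 1 (S / p)).biUnion fun k => (Ioc x (x + y)).filter fun m => p * (1 + k * p) ∣ m)
    exact_mod_cast a1.trans (Nat.add_le_add_left a2 _)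
  calc ((Bp x y S p).card : ℝ) ≤ _ := h4
    _ ≤ (y / (p : ℝ) ^ 2 + 1) + (((1 + Real.log S) * (y / (p : ℝ) ^ 2) + S / p) +
        ((1 + Real.log S) * (y / (p : ℝ) ^ 2) + S / p)) := by linarith
    _ = _ := by ring

theorem bad_short (x y : ℕ) (w : ℝ) (hw : 1 ≤ w) (hx : 1 ≤ x) (hyx : y ≤ x) :
    (((Ioc x (x + y)).filter fun m => ¬ CY.IsCyclicNumber m ∧ Rough w m).card : ℝ) ≤
      (3 + 2 * Real.log (Nat.sqrt (2 * x))) * (2 * y / w + Nat.sqrt (2 * x)) := by
  set S := Nat.sqrt (2 * x) with hS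
  have hS1 : 1 ≤ S := by
    rw [hS, Nat.le_sqrt]
    omega
  have hlogS : 0 ≤ Real.log S := Real.log_nonneg (by exact_mod_cast hS1)
  set W := ⌊w⌋₊ with hW
  have hW1 : 1 ≤ W := Nat.le_floor (by exact_mod_cast hw)
  have hWR : (1 : ℝ) ≤ W := by exact_mod_cast hW1
  have hww : w ≤ 2 * W := by
    have := Nat.lt_floor_add_one w
    rw [← hW] at this
    linarith
  have hs2 : ∑ p ∈ Ioc W S, 1 / (p : ℝ) ^ 2 ≤ 1 / (W : ℝ) := by
    rcases le_or_gt W S with h | h
    · have := sum_Ioc_inv_sq_le_sub (α := ℝ) (k := W) (n := S) (by omega) h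
      have e : ∑ p ∈ Ioc W S, 1 / (p : ℝ) ^ 2 = ∑ i ∈ Ioc W S, ((i : ℝ) ^ 2)⁻¹ := by
        apply sum_congr rfl
        intro p _
        rw [one_div]
      rw [e, one_div]
      have : (0 : ℝ) ≤ (S : ℝ)⁻¹ := by positivity
      linarith
    · rw [Finset.Ioc_eq_empty (by omega), sum_empty]
      positivity
  have hs1 : ∑ p ∈ Ioc W S, 1 / (p : ℝ) ≤ 1 + Real.log S := by
    refine le_trans ?_ (harm S)
    apply sum_le_sum_of_subset_of_nonneg
    · intro p hp
      rw [mem_Ioc] at hp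
      rw [mem_Icc]
      omega
    · intro p _ _
      positivity
  have hcard : ((Ioc W S).card : ℝ) ≤ S := by
    rw [Nat.card_Ioc]
    exact_mod_cast Nat.sub_le S W
  calc (((Ioc x (x + y)).filter fun m => ¬ CY.IsCyclicNumber m ∧ Rough w m).card : ℝ)
      ≤ ((((Ioc W S).biUnion fun p => Bp x y S p).card : ℕ) : ℝ) := by
        exact_mod_cast card_le_card (bad_sub x y w hw hyx)
    _ ≤ ((∑ p ∈ Ioc W S, (Bp x y S p).card : ℕ) : ℝ) := by exact_mod_cast card_biUnion_le
    _ ≤ ∑ p ∈ Ioc W S, ((3 + 2 * Real.log S) * y * (1 / (p : ℝ) ^ 2) + (1 + 2 * S * (1 / (p : ℝ)))) := by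
        push_cast
        refine sum_le_sum fun p hp => ?_
        have hp0 : 0 < p := by
          have := (mem_Ioc.1 hp).1
          omega
        refine (Bp_card x y S p hp0 hS1).trans (le_of_eq ?_)
        ring
    _ = (3 + 2 * Real.log S) * y * (∑ p ∈ Ioc W S, 1 / (p : ℝ) ^ 2) +
        (((Ioc W S).card : ℝ) + 2 * S * ∑ p ∈ Ioc W S, 1 / (p : ℝ)) := by
        rw [sum_add_distrib, sum_add_distrib, ← mul_sum, ← mul_sum]
        simp
    _ ≤ (3 + 2 * Real.log S) * y * (1 / (W : ℝ)) + (S + 2 * S * (1 + Real.log S)) := by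
        gcongr
    _ ≤ (3 + 2 * Real.log S) * y * (2 / w) + (S + 2 * S * (1 + Real.log S)) := by
        have h1 : (1 : ℝ) / W ≤ 2 / w := by
          rw [div_le_div_iff₀ (by linarith) (by linarith)]
          linarith
        gcongr
    _ = (3 + 2 * Real.log S) * (2 * y / w + S) := by ring

end Pool.Agent.H69.CP
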