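import Pool.Agent.H69.CP.Def
import Pool.Agent.H95.FL.Main
import Pool.Agent.H75.AP.MertensB

/-!
[H69 CP RGH] Every interval of length `h` contains at least `c1 h / log h` numbers without prime factors `<= h^a`.

Proof. `Pool.Agent.H95.FL.sandwich` with `K = 1`, `B = 10`, `η = 1/2`, `a = 1/144`, `x = h`, gives `w0`, `x0`. `P` = primes `p` with
`w0 < p <= h^a`; `W` = product of the primes `<= w0` (or `w0.factorial`), `b = 1`, `q = 1`, `r = 0`. `Pool.Agent.H95.FL.rough_cnt`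
with `T = Ioc Y (Y + h)`, `ω = 1`, `UD` from `ud_Ioc` (`X = h`, `E = 1`), `I = Unit` (or `Fin 1`), shift `0`: the number of the
`N` in `T` with `N % W = 1 % W` and no prime factor in `P` is `>= (1 - 2^(-10)) h / W * vv - h^(1/2)`, and such `N` has no prime
factor `<= h^a`. `vv = ∏_{p in P} (1 - 1/p) >= exp (- ∑ 1/p - ∑ 1/p^2) >= exp (-1 - C) / log (h^a)` from
`Pool.Agent.H75.AP.mertens_upper` (use `1 - u >= exp (-u - u^2)` for `0 <= u <= 1/2`, or `1 - u >= exp (-u/(1-u))`).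
-/

namespace Pool.Agent.H69.CP

open Finset Classical

namespace RghAux

theorem tele (h : ℕ) (hh : 1 ≤ h) :
    ∑ n ∈ Icc 2 h, 1 / ((n : ℝ) * (n - 1)) ≤ 1 - 1 / (h : ℝ) := by
  induction h, hh using Nat.le_induction with
  | base => simp
  | succ m hm ih =>
    have hm0 : (0 : ℝ) < m := by exact_mod_cast hm
    rw [Finset.sum_Icc_succ_top (by omega)]
    have e : 1 / (((m + 1 : ℕ) : ℝ) * (((m + 1 : ℕ) : ℝ) - 1)) = 1 / (m : ℝ) - 1 / ((m + 1 : ℕ) : ℝ) := by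
      have e1 : ((m + 1 : ℕ) : ℝ) - 1 = m := by push_cast; ring
      rw [e1]
      push_cast
      field_simp
      ring
    rw [e]
    linarith

/-- the product of `1 - 1/p` -/
theorem vv_lower (h : ℕ) (v C : ℝ) (P : Finset ℕ) (hv : 3 ≤ v) (hh : 1 ≤ h)
    (hP : ∀ p ∈ P, p.Prime ∧ p ≤ h ∧ (p : ℝ) ≤ v)
    (hM : ∑ p ∈ Pool.Agent.H75.AP.PI 0 v, 1 / (p : ℝ) ≤ Real.log (Real.log v) + C) :
    Real.exp (-1 - C) / Real.log v ≤ ∏ p ∈ P, (1 - 1 / (p : ℝ)) := by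
  have hlogv : 1 ≤ Real.log v := by
    rw [Real.le_log_iff_exp_le (by linarith)]
    linarith [Real.exp_one_lt_d9]
  have h1 : ∑ p ∈ P, 1 / (p : ℝ) ≤ Real.log (Real.log v) + C := by
    refine le_trans (sum_le_sum_of_subset_of_nonneg ?_ fun p _ _ => by positivity) hM
    intro p hp
    obtain ⟨h2, -, h4⟩ := hP p hp
    unfold Pool.Agent.H75.AP.PI
    rw [mem_filter, mem_range]
    exact ⟨Nat.lt_succ_of_le (Nat.le_floor h4), h2, by exact_mod_cast h2.pos⟩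
  have h2 : ∑ p ∈ P, 1 / ((p : ℝ) * (p - 1)) ≤ 1 := by
    have h3 : ∑ p ∈ P, 1 / ((p : ℝ) * (p - 1)) ≤ ∑ n ∈ Icc 2 h, 1 / ((n : ℝ) * (n - 1)) := by
      refine sum_le_sum_of_subset_of_nonneg ?_ ?_
      · intro p hp
        obtain ⟨h4, h5, -⟩ := hP p hp
        exact mem_Icc.2 ⟨h4.two_le, h5⟩
      · intro n hn _
        have h4 : (2 : ℝ) ≤ n := by exact_mod_cast (mem_Icc.1 hn).1
        have h5 : (0 : ℝ) ≤ (n : ℝ) - 1 := by linarith
        positivity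
    have h4 := tele h hh
    have h5 : (0 : ℝ) ≤ 1 / (h : ℝ) := by positivity
    linarith
  have h3 : ∀ p ∈ P, Real.exp (-(1 / (p : ℝ)) - 1 / ((p : ℝ) * (p - 1))) ≤ 1 - 1 / (p : ℝ) := by
    intro p hp
    have hp2 : (2 : ℝ) ≤ p := by exact_mod_cast (hP p hp).1.two_le
    have hp1 : (0 : ℝ) < (p : ℝ) - 1 := by linarith
    have hp0 : (0 : ℝ) < p := by linarith
    have e : -(1 / (p : ℝ)) - 1 / ((p : ℝ) * (p - 1)) = -(1 / ((p : ℝ) - 1)) := by
      field_simp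
      ring
    have e2 : 1 - 1 / (p : ℝ) = (1 + 1 / ((p : ℝ) - 1))⁻¹ := by
      field_simp
      ring
    rw [e, Real.exp_neg, e2]
    have h4 := Real.add_one_le_exp (1 / ((p : ℝ) - 1))
    have h5 : (0 : ℝ) < 1 / ((p : ℝ) - 1) := by positivity
    exact inv_anti₀ (by linarith) (by linarith)
  have h4 : Real.exp (∑ p ∈ P, (-(1 / (p : ℝ)) - 1 / ((p : ℝ) * (p - 1)))) ≤
      ∏ p ∈ P, (1 - 1 / (p : ℝ)) := by
    rw [Real.exp_sum]
    exact prod_le_prod (fun p _ => (Real.exp_pos _).le) h3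
  refine le_trans ?_ h4
  rw [sum_sub_distrib, sum_neg_distrib]
  have h5 : Real.exp (-1 - C) / Real.log v = Real.exp (-(Real.log (Real.log v) + C) - 1) := by
    have h6 : Real.log v = Real.exp (Real.log (Real.log v)) :=
      (Real.exp_log (by linarith)).symm
    conv_lhs => rw [h6]
    rw [← Real.exp_sub]
    congr 1
    ring
  rw [h5]
  exact Real.exp_le_exp.2 (by linarith)

end RghAux

theorem rough_block : ∃ a c1 : ℝ, 0 < a ∧ a ≤ 1 ∧ 0 < c1 ∧ ∃ h0 : ℕ, 3 ≤ h0 ∧ ∀ h : ℕ, h0 ≤ h → ∀ Y : ℕ,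
    c1 * h / Real.log h ≤ (((Ioc Y (Y + h)).filter fun m => Rough ((h : ℝ) ^ a) m).card : ℝ) := by
  obtain ⟨w0, hw0, hS⟩ := Pool.Agent.H95.FL.sandwich 1 le_rfl
  obtain ⟨x0, hx0, hS2⟩ := hS 10 (1 / 2) (1 / 144) (by norm_num) (by norm_num) (by norm_num)
    (by norm_num)
  obtain ⟨C, hC, hM⟩ := Pool.Agent.H75.AP.mertens_upper
  have hW : 0 < w0.factorial := Nat.factorial_pos _
  have hW' : (0 : ℝ) < (w0.factorial : ℝ) := by exact_mod_cast hW
  obtain ⟨c2, hc2⟩ : ∃ c2 : ℝ, c2 = Real.exp (-1 - C) / w0.factorial := ⟨_, rfl⟩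
  have hc20 : 0 < c2 := by
    rw [hc2]
    have := Real.exp_pos (-1 - C)
    positivity
  have ev : ∀ᶠ x : ℝ in Filter.atTop, x0 ≤ x ∧ 3 ≤ x ^ (1 / 144 : ℝ) ∧
      Real.log x ≤ c2 / 4 * x ^ (1 / 2 : ℝ) := by
    have e1 := Filter.eventually_ge_atTop x0
    have e2 := (tendsto_rpow_atTop (by norm_num : (0 : ℝ) < 1 / 144)).eventually_ge_atTop 3
    have e3 := (isLittleO_log_rpow_atTop (by norm_num : (0 : ℝ) < 1 / 2)).bound
      (by positivity : 0 < c2 / 4)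
    filter_upwards [e1, e2, e3, Filter.eventually_ge_atTop 1] with x h1 h2 h3 h4
    refine ⟨h1, h2, ?_⟩
    rw [Real.norm_eq_abs, Real.norm_eq_abs, abs_of_nonneg (Real.log_nonneg h4),
      abs_of_nonneg (by positivity)] at h3
    exact h3
  obtain ⟨X, hX⟩ := Filter.eventually_atTop.1 ev
  refine ⟨1 / 144, c2 / 2, by norm_num, by norm_num, by positivity, max 3 ⌈X⌉₊, le_max_left _ _, ?_⟩
  intro h hh Y
  have hh3 : 3 ≤ h := (le_max_left _ _).trans hh
  have hhX : X ≤ (h : ℝ) := (Nat.le_ceil X).trans (by exact_mod_cast (le_max_right _ _).trans hh)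
  obtain ⟨h1, h2, h3⟩ := hX h hhX
  have hr3 : (3 : ℝ) ≤ h := by exact_mod_cast hh3
  have hr0 : (0 : ℝ) < h := by linarith
  have hlog : 0 < Real.log h := Real.log_pos (by linarith)
  have hle : (h : ℝ) ^ (1 / 144 : ℝ) ≤ h := by
    calc (h : ℝ) ^ (1 / 144 : ℝ) ≤ (h : ℝ) ^ (1 : ℝ) :=
          Real.rpow_le_rpow_of_exponent_le (by linarith) (by norm_num)
      _ = h := Real.rpow_one _
  obtain ⟨P, hPd⟩ : ∃ P : Finset ℕ, P = (range (h + 1)).filter fun p =>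
    p.Prime ∧ w0 < p ∧ (p : ℝ) ≤ (h : ℝ) ^ (1 / 144 : ℝ) := ⟨_, rfl⟩
  have hP : ∀ p ∈ P, p.Prime ∧ w0 < p ∧ (p : ℝ) ≤ (h : ℝ) ^ (1 / 144 : ℝ) := by
    intro p hp
    rw [hPd] at hp
    exact (mem_filter.1 hp).2
  obtain ⟨fl, fu, hsand⟩ := hS2 h h1 P hP
  have hs := hsand (fun p => (Fintype.card (Fin 1) : ℝ) / p) (by
    intro p hp
    have hp0 : (0 : ℝ) < p := by exact_mod_cast (hP p hp).1.pos
    rw [Fintype.card_fin]
    push_cast
    refine ⟨by positivity, ?_⟩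
    exact div_le_div_of_nonneg_right (by norm_num) hp0.le)
  have hUD := Pool.Agent.H95.FL.ud_Ioc Y (Y + h) (by omega)
  have key := Pool.Agent.H95.FL.rough_cnt hUD (fun _ _ => zero_le_one)
    (by push_cast; linarith) (I := Fin 1) (fun _ => 0) w0.factorial 1 1 0 P hW one_pos
    (Nat.coprime_one_right _)
    (fun p hp => ⟨(hP p hp).1, fun hd => by
      have := ((hP p hp).1.dvd_factorial).1 hd
      have := (hP p hp).2.1
      omega, fun hd => (hP p hp).1.one_lt.ne' (Nat.dvd_one.1 hd)⟩)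
    (fun p _ i j hij => absurd (Subsingleton.elim i j) hij)
    ((h : ℝ) ^ (1 / 2 : ℝ)) ((1 / 2 : ℝ) ^ 10) fl fu (by
      rw [Fintype.card_fin] at hs ⊢
      exact hs)
  have hsub : ((Ioc Y (Y + h)).filter fun N => N % w0.factorial = 1 % w0.factorial ∧
      N % 1 = 0 % 1 ∧ Pool.Agent.H95.FL.DP (fun _ : Fin 1 => 0) P N = ∅) ⊆
      (Ioc Y (Y + h)).filter fun m => Rough ((h : ℝ) ^ (1 / 144 : ℝ)) m := by
    intro N hN
    obtain ⟨hN1, hN2, -, hN4⟩ := mem_filter.1 hN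
    refine mem_filter.2 ⟨hN1, ?_⟩
    intro p hp hpN
    by_contra hcon
    push Not at hcon
    by_cases hpw : p ≤ w0
    · have h5 : p ∣ w0.factorial := (hp.dvd_factorial).2 hpw
      have h6 : N ≡ 1 [MOD p] := Nat.ModEq.of_dvd h5 hN2
      have h7 : (0 : ℕ) ≡ 1 [MOD p] := ((Nat.modEq_zero_iff_dvd.2 hpN).symm).trans h6
      have h8 := (Nat.modEq_zero_iff_dvd.1 h7.symm)
      exact hp.one_lt.ne' (Nat.dvd_one.1 h8)
    · have hmem : p ∈ Pool.Agent.H95.FL.DP (fun _ : Fin 1 => 0) P N := by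
        rw [Pool.Agent.H95.FL.mem_DP]
        refine ⟨?_, 0, by simpa using hpN⟩
        rw [hPd, mem_filter, mem_range]
        refine ⟨?_, hp, by omega, hcon⟩
        have : (p : ℝ) ≤ h := hcon.trans hle
        have : p ≤ h := by exact_mod_cast this
        omega
      rw [hN4] at hmem
      exact notMem_empty _ hmem
  have hcard := card_le_card hsub
  have hcard' : (((Ioc Y (Y + h)).filter fun N => N % w0.factorial = 1 % w0.factorial ∧
      N % 1 = 0 % 1 ∧ Pool.Agent.H95.FL.DP (fun _ : Fin 1 => 0) P N = ∅).card : ℝ) ≤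
      (((Ioc Y (Y + h)).filter fun m => Rough ((h : ℝ) ^ (1 / 144 : ℝ)) m).card : ℝ) := by
    exact_mod_cast hcard
  refine le_trans ?_ hcard'
  rw [sum_const, nsmul_eq_mul, mul_one] at key
  have hvv : Real.exp (-1 - C) / Real.log h ≤
      Pool.Agent.H95.FL.vv (fun p => (Fintype.card (Fin 1) : ℝ) / p) P := by
    have h5 := RghAux.vv_lower h ((h : ℝ) ^ (1 / 144 : ℝ)) C P h2 (by omega) (by
      intro p hp
      refine ⟨(hP p hp).1, ?_, (hP p hp).2.2⟩
      rw [hPd] at hp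
      have := mem_range.1 (mem_filter.1 hp).1
      omega) (hM _ h2)
    have h6 : Pool.Agent.H95.FL.vv (fun p => (Fintype.card (Fin 1) : ℝ) / p) P =
        ∏ p ∈ P, (1 - 1 / (p : ℝ)) := by
      unfold Pool.Agent.H95.FL.vv
      rw [Fintype.card_fin]
      push_cast
      rfl
    rw [h6]
    refine le_trans ?_ h5
    rw [Real.log_rpow hr0]
    exact div_le_div_of_nonneg_left (Real.exp_pos _).le (by positivity) (by linarith)
  have hXe : (((Y + h : ℕ) : ℝ) - Y) = h := by push_cast; ring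
  rw [hXe] at key
  rw [abs_le] at key
  obtain ⟨key1, -⟩ := key
  have hq : (h : ℝ) / ((w0.factorial : ℝ) * ((1 : ℕ) : ℝ)) = h / w0.factorial := by
    rw [Nat.cast_one, mul_one]
  rw [hq] at key1
  have h7 : c2 * h / Real.log h ≤ h / w0.factorial *
      Pool.Agent.H95.FL.vv (fun p => (Fintype.card (Fin 1) : ℝ) / p) P := by
    have e : c2 * h / Real.log h = h / w0.factorial * (Real.exp (-1 - C) / Real.log h) := by
      rw [hc2]
      ring
    rw [e]
    exact mul_le_mul_of_nonneg_left hvv (by positivity)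
  have h8 : (h : ℝ) ^ (1 / 2 : ℝ) ≤ c2 / 4 * h / Real.log h := by
    rw [le_div_iff₀ hlog]
    have e : (h : ℝ) = (h : ℝ) ^ (1 / 2 : ℝ) * (h : ℝ) ^ (1 / 2 : ℝ) := by
      rw [← Real.rpow_add hr0]
      norm_num
    calc (h : ℝ) ^ (1 / 2 : ℝ) * Real.log h ≤
          (h : ℝ) ^ (1 / 2 : ℝ) * (c2 / 4 * (h : ℝ) ^ (1 / 2 : ℝ)) :=
          mul_le_mul_of_nonneg_left h3 (by positivity)
      _ = c2 / 4 * ((h : ℝ) ^ (1 / 2 : ℝ) * (h : ℝ) ^ (1 / 2 : ℝ)) := by ring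
      _ = c2 / 4 * h := by rw [← e]
  have h9 : c2 / 4 * h / Real.log h = (c2 * h / Real.log h) / 4 := by ring
  have h10 : c2 / 2 * h / Real.log h = (c2 * h / Real.log h) / 2 := by ring
  rw [h9] at h8
  rw [h10]
  have h11 : 0 ≤ c2 * h / Real.log h := by positivity
  norm_num at key1
  norm_num at h8 h7 ⊢
  linarith

end Pool.Agent.H69.CP
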