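import Pool.Agent.H69.CP.Gpa

/-!
[H69 CP ALL] `sqrt_scale` for all `n ≥ 2` (the finitely many small `n` by the size of the constant).
-/

namespace Pool.Agent.H69.CP

open Finset Classical Filter

theorem F_small {δ : ℝ} (hδ : 0 < δ) : ∃ m0 : ℕ, ∀ m : ℕ, m0 ≤ m → F m < δ := by
  have t1 : Tendsto (fun x : ℕ => ((x + 1 : ℕ) : ℝ)) atTop atTop :=
    tendsto_natCast_atTop_atTop.comp (tendsto_add_atTop_nat 1)
  have e1 : ∀ᶠ x : ℕ in atTop, Real.log ((x + 1 : ℕ) : ℝ) ≤ δ / 8 * ((x + 1 : ℕ) : ℝ) := by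
    have h := Real.isLittleO_log_id_atTop.bound (show (0 : ℝ) < δ / 8 by positivity)
    filter_upwards [t1.eventually h, eventually_ge_atTop 3] with x hx hx3
    have hx3' : (1 : ℝ) ≤ ((x + 1 : ℕ) : ℝ) := by exact_mod_cast (by omega : 1 ≤ x + 1)
    rw [Real.norm_eq_abs, abs_of_nonneg (Real.log_nonneg hx3'), id, Real.norm_eq_abs,
      abs_of_nonneg (by linarith)] at hx
    exact hx
  have e2 : ∀ᶠ x : ℕ in atTop, 3 + δ < δ / 2 * (x : ℝ) := by
    have h := (tendsto_natCast_atTop_atTop (R := ℝ)).eventually_gt_atTop ((3 + δ) / (δ / 2))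
    filter_upwards [h] with x hx
    rwa [div_lt_iff₀' (by positivity)] at hx
  obtain ⟨m1, hm1⟩ := eventually_atTop.1 (e1.and e2)
  refine ⟨max m1 3, ?_⟩
  intro m hm
  obtain ⟨g1, g2⟩ := hm1 m (le_trans (le_max_left _ _) hm)
  have hm3 : 3 ≤ m := le_trans (le_max_right _ _) hm
  have hmR : (3 : ℝ) ≤ m := by exact_mod_cast hm3
  unfold F
  rw [div_lt_iff₀ (by linarith)]
  have h1 := CY.log_c_le (n := m + 1) (by omega)
  have h2 : Real.log (Real.log ((m + 1 : ℕ) : ℝ)) ≤ Real.log ((m + 1 : ℕ) : ℝ) / 2 := by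
    apply CY.log_le_half
    apply Real.log_pos
    exact_mod_cast (by omega : 1 < m + 1)
  have h4 : Real.log (14 : ℝ) ≤ 2.8 := by
    have e1 : Real.log (14 : ℝ) ≤ Real.log (2 ^ 4 : ℝ) := Real.log_le_log (by norm_num) (by norm_num)
    rw [Real.log_pow] at e1
    have := Real.log_two_lt_d9
    push_cast at e1
    linarith
  have h5 : ((m + 1 : ℕ) : ℝ) = m + 1 := by push_cast; ring
  have h6 : 0 ≤ Real.log ((m + 1 : ℕ) : ℝ) := Real.log_natCast_nonneg _
  have g3 : δ / 8 * ((m + 1 : ℕ) : ℝ) = δ / 8 * m + δ / 8 := by rw [h5]; ring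
  rw [g3] at g1
  have h7 : 0 < δ * m := by positivity
  linarith

theorem all_n : ∃ C : ℝ, 0 < C ∧ ∀ n m : ℕ, 2 ≤ n → (n : ℝ) + C * Real.sqrt n * Real.log n ≤ m →
    (CY.c (m + 1) : ℝ) ^ (1 / (m : ℝ)) < (CY.c (n + 1) : ℝ) ^ (1 / (n : ℝ)) := by
  obtain ⟨C, hC, n0, hn0, h⟩ := sqrt_ineq
  obtain ⟨m0, hm0⟩ := F_small (δ := Real.log 3 / n0) (by
    have : (0 : ℝ) < n0 := by exact_mod_cast hn0
    have : 0 < Real.log 3 := Real.log_pos (by norm_num)
    positivity)
  refine ⟨C + 2 * m0, by positivity, ?_⟩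
  intro n m hn hm
  have hnR : (2 : ℝ) ≤ n := by exact_mod_cast hn
  have hl : (0.69 : ℝ) ≤ Real.log n := by
    have h1 : Real.log 2 ≤ Real.log n := Real.log_le_log (by norm_num) hnR
    have := Real.log_two_gt_d9
    linarith
  have hs : 1 ≤ Real.sqrt n := Real.one_le_sqrt.2 (by linarith)
  have hsl : (1 / 2 : ℝ) ≤ Real.sqrt n * Real.log n := by nlinarith
  have hm0R : (0 : ℝ) ≤ m0 := Nat.cast_nonneg _
  rcases Nat.lt_or_ge n n0 with hlt | hge
  · have hmm : m0 ≤ m := by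
      have h1 : (m0 : ℝ) ≤ m := by
        have h2 : 2 * (m0 : ℝ) * (1 / 2) ≤ 2 * m0 * (Real.sqrt n * Real.log n) := by gcongr
        have h3 : 0 ≤ C * (Real.sqrt n * Real.log n) := by positivity
        nlinarith
      exact_mod_cast h1
    have h1 := hm0 m hmm
    have hpos : ∀ k : ℕ, (0 : ℝ) < CY.c (k + 1) := by
      intro k
      have := CY.le_c (n := k + 1) (by omega)
      have : 0 < CY.c (k + 1) := by omega
      exact_mod_cast this
    have h2 : Real.log 3 / n0 ≤ F n := by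
      unfold F
      have h3 : Real.log 3 ≤ Real.log (CY.c (n + 1)) := by
        apply Real.log_le_log (by norm_num)
        have := CY.le_c (n := n + 1) (by omega)
        exact_mod_cast (by omega : 3 ≤ CY.c (n + 1))
      have h4 : 0 < Real.log 3 := Real.log_pos (by norm_num)
      have h5 : (n : ℝ) ≤ n0 := by exact_mod_cast hlt.le
      have h6 : (0 : ℝ) < n := by linarith
      have h7 : (0 : ℝ) < n0 := by linarith
      calc Real.log 3 / n0 ≤ Real.log 3 / n := by gcongr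
        _ ≤ Real.log (CY.c (n + 1)) / n := by gcongr
    have h8 : F m < F n := lt_of_lt_of_le h1 h2
    rw [← Real.log_lt_log_iff (Real.rpow_pos_of_pos (hpos m) _) (Real.rpow_pos_of_pos (hpos n) _),
      Real.log_rpow (hpos m), Real.log_rpow (hpos n), one_div_mul_eq_div, one_div_mul_eq_div]
    exact h8
  · refine h n m hge (le_trans ?_ hm)
    have h3 : 0 ≤ 2 * (m0 : ℝ) * (Real.sqrt n * Real.log n) := by positivity
    nlinarith

end Pool.Agent.H69.CP
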