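import Pool.Agent.H69.CP.Def

/-!
[H69 CP CNTA] A number which is not cyclic is divisible by `p^2` or by `p q`, `q` congruent to `1` modulo `p`.
-/

namespace Pool.Agent.H69.CP.A

open Finset Classical

theorem dvd_totient (m : ℕ) (h0 : 0 < m) (h : ¬ CY.IsCyclicNumber m) :
    ∃ p : ℕ, p.Prime ∧ p ∣ m ∧ (p ^ 2 ∣ m ∨ ∃ q : ℕ, q.Prime ∧ q % p = 1 ∧ p * q ∣ m) := by
  have hg : Nat.gcd m (Nat.totient m) ≠ 1 := fun h1 => h ⟨h0, h1⟩
  obtain ⟨p, hp, hpg⟩ := Nat.exists_prime_and_dvd hg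
  have hpm : p ∣ m := hpg.trans (Nat.gcd_dvd_left _ _)
  have hpt : p ∣ Nat.totient m := hpg.trans (Nat.gcd_dvd_right _ _)
  refine ⟨p, hp, hpm, ?_⟩
  by_cases hsq : p ^ 2 ∣ m
  · exact Or.inl hsq
  · right
    have hm0 : m ≠ 0 := by omega
    rw [Nat.totient_eq_prod_factorization hm0, Finsupp.prod] at hpt
    obtain ⟨q, hq, hpq⟩ := (Prime.dvd_finsetProd_iff hp.prime _).1 hpt
    rw [Nat.support_factorization, Nat.mem_primeFactors] at hq
    obtain ⟨hqp, hqm, -⟩ := hq
    have hne : ¬ p ∣ q ^ (m.factorization q - 1) := by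
      intro h1
      have h2 : p ∣ q := hp.dvd_of_dvd_pow h1
      have h3 : p = q := (Nat.prime_dvd_prime_iff_eq hp hqp).1 h2
      subst h3
      have h4 : 2 ≤ m.factorization p := by
        by_contra h5
        have h6 : m.factorization p - 1 = 0 := by omega
        rw [h6, pow_zero, Nat.dvd_one] at h1
        exact hp.one_lt.ne' h1
      exact hsq ((hp.pow_dvd_iff_le_factorization hm0).2 h4)
    have hq1 : p ∣ q - 1 := (hp.dvd_mul.1 hpq).resolve_left hne
    obtain ⟨e, he⟩ := hq1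
    have hq2 := hqp.two_le
    have hp2 := hp.two_le
    have hqe : q = 1 + p * e := by omega
    have he1 : 1 ≤ e := by
      rcases Nat.eq_zero_or_pos e with h1 | h1
      · rw [h1, mul_zero] at he
        omega
      · exact h1
    refine ⟨q, hqp, ?_, ?_⟩
    · rw [hqe, Nat.add_mul_mod_self_left]
      exact Nat.mod_eq_of_lt (by omega)
    · refine Nat.Coprime.mul_dvd_of_dvd_of_dvd ?_ hpm hqm
      rw [Nat.coprime_primes hp hqp]
      intro h1
      rw [← h1] at hqe
      have h2 : p ≤ p * e := Nat.le_mul_of_pos_right _ he1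
      omega

end Pool.Agent.H69.CP.A
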