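import Pool.Agent.H69.CP.Inn
import Pool.Agent.H69.CP.CntA

/-!
[H69 CP CNT] The rough numbers which are not cyclic.

Proof. `m >= 1` not cyclic: some prime `p` divides `m` and `φ m`; then `p^2 ∣ m` or some prime `q ∣ m` has `p ∣ q - 1`
(`dvd_totient`, proved here first). In the second case `q ≠ p`, so `p q ∣ m`, `q % p = 1`, `q <= X`. If `m` is rough, `p > z`.
So the number is `<= ∑_{z < p <= X} (X/p^2 + ∑_{q <= X, q % p = 1} X/(p q)) <= X ∑_{p > z} (1/p^2 + C (LL X + log p)/p^2)` by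
`inner`; `log p <= 2 sqrt p` (or `4 p^(1/4)`..), `1 <= LL X`, `∑_{p > z} p^(-3/2) <= 3 / sqrt z` over integers `p > z >= 1`
(telescoping: `p^(-3/2) <= 2/sqrt(p-1) - 2/sqrt p`).
-/

namespace Pool.Agent.H69.CP

open Finset Classical

theorem dvd_totient (m : ℕ) (h0 : 0 < m) (h : ¬ CY.IsCyclicNumber m) :
    ∃ p : ℕ, p.Prime ∧ p ∣ m ∧ (p ^ 2 ∣ m ∨ ∃ q : ℕ, q.Prime ∧ q % p = 1 ∧ p * q ∣ m) :=
  A.dvd_totient m h0 h

private lemma bc_tele (n : ℕ) (hn : 1 ≤ n) :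
    1 / (((n + 1 : ℕ) : ℝ) * Real.sqrt ((n + 1 : ℕ) : ℝ)) ≤
      2 / Real.sqrt (n : ℝ) - 2 / Real.sqrt ((n + 1 : ℕ) : ℝ) := by
  have hn0 : (0 : ℝ) < n := by exact_mod_cast hn
  have hc : (((n + 1 : ℕ) : ℝ)) = (n : ℝ) + 1 := by push_cast; ring
  have hn1 : (0 : ℝ) < ((n + 1 : ℕ) : ℝ) := by rw [hc]; linarith
  obtain ⟨a, ha⟩ : ∃ a, a = Real.sqrt (n : ℝ) := ⟨_, rfl⟩
  obtain ⟨b, hb⟩ : ∃ b, b = Real.sqrt ((n + 1 : ℕ) : ℝ) := ⟨_, rfl⟩
  have ha0 : 0 < a := by rw [ha]; exact Real.sqrt_pos.mpr hn0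
  have hb0 : 0 < b := by rw [hb]; exact Real.sqrt_pos.mpr hn1
  have haa : a * a = n := by rw [ha]; exact Real.mul_self_sqrt hn0.le
  have hbb : b * b = ((n + 1 : ℕ) : ℝ) := by rw [hb]; exact Real.mul_self_sqrt hn1.le
  have hab : a ≤ b := by
    rw [ha, hb]
    exact Real.sqrt_le_sqrt (by rw [hc]; linarith)
  have h1 : b * b - a * a = 1 := by rw [haa, hbb, hc]; ring
  rw [← ha, ← hb, ← hbb]
  have h2 : 2 / a - 2 / b = 2 / (a * b * (b + a)) := by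
    rw [div_sub_div _ _ ha0.ne' hb0.ne', div_eq_div_iff (by positivity) (by positivity)]
    have : (2 * b - a * 2) * (a * b * (b + a)) = 2 * (a * b) * (b * b - a * a) := by ring
    rw [this, h1]
    ring
  rw [h2, div_le_div_iff₀ (by positivity) (by positivity)]
  have h3 : a * (b + a) ≤ 2 * (b * b) := by nlinarith
  nlinarith [mul_le_mul_of_nonneg_left h3 hb0.le]

private lemma bc_tail (Z : ℕ) (hZ : 1 ≤ Z) (X : ℕ) :
    ∑ n ∈ Ioc Z X, 1 / ((n : ℝ) * Real.sqrt (n : ℝ)) ≤ 2 / Real.sqrt (Z : ℝ) := by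
  rcases lt_or_ge X Z with h | h
  · rw [Finset.Ioc_eq_empty (by omega), Finset.sum_empty]
    positivity
  · have key : ∑ n ∈ Ioc Z X, 1 / ((n : ℝ) * Real.sqrt (n : ℝ)) ≤
        2 / Real.sqrt (Z : ℝ) - 2 / Real.sqrt (X : ℝ) := by
      induction X, h using Nat.le_induction with
      | base => simp
      | succ n hn ih =>
        rw [Finset.sum_Ioc_succ_top hn]
        have := bc_tele n (by omega)
        linarith
    have : 0 ≤ 2 / Real.sqrt (X : ℝ) := by positivity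
    linarith

private lemma bc_term (C0 L X : ℝ) (p : ℕ) (S : ℝ) (hC0 : 0 < C0) (hL : 1 ≤ L) (hX : 0 ≤ X)
    (hp : 1 ≤ p) (hS : S ≤ C0 * (L + Real.log p) / p) :
    X / ((p ^ 2 : ℕ) : ℝ) + X / (p : ℝ) * S ≤
      X * L * (1 + 3 * C0) * (1 / ((p : ℝ) * Real.sqrt (p : ℝ))) := by
  have hp0 : (0 : ℝ) < p := by exact_mod_cast hp
  have hp1 : (1 : ℝ) ≤ p := by exact_mod_cast hp
  obtain ⟨s, hs⟩ : ∃ s, s = Real.sqrt (p : ℝ) := ⟨_, rfl⟩
  have hs1 : 1 ≤ s := by rw [hs]; exact Real.one_le_sqrt.mpr hp1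
  have hs0 : 0 < s := by linarith
  have hss : s * s = p := by rw [hs]; exact Real.mul_self_sqrt hp0.le
  have hlog : Real.log p ≤ 2 * s := by
    have h1 : Real.log s = Real.log p / 2 := by rw [hs]; exact Real.log_sqrt hp0.le
    have h2 : Real.log s ≤ s - 1 := Real.log_le_sub_one_of_pos hs0
    linarith
  have h1 : X / (p : ℝ) * S ≤ X / (p : ℝ) * (C0 * (L + Real.log p) / p) :=
    mul_le_mul_of_nonneg_left hS (by positivity)
  have h2 : 1 + C0 * (L + Real.log p) ≤ L * s * (1 + 3 * C0) := by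
    have e1 : 1 ≤ L * s := by nlinarith
    have e2 : L ≤ L * s := by nlinarith
    have e3 : Real.log p ≤ 2 * (L * s) := by nlinarith
    have e4 : C0 * (L + Real.log p) ≤ C0 * (3 * (L * s)) := mul_le_mul_of_nonneg_left (by linarith) hC0.le
    nlinarith
  have h3 : X / ((p ^ 2 : ℕ) : ℝ) + X / (p : ℝ) * (C0 * (L + Real.log p) / p) =
      X / ((p : ℝ) * p) * (1 + C0 * (L + Real.log p)) := by
    push_cast
    field_simp
  have h4 : X * L * (1 + 3 * C0) * (1 / ((p : ℝ) * s)) = X / ((p : ℝ) * p) * (L * s * (1 + 3 * C0)) := by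
    rw [← hss]
    field_simp
  rw [← hs, h4]
  calc X / ((p ^ 2 : ℕ) : ℝ) + X / (p : ℝ) * S
      ≤ X / ((p ^ 2 : ℕ) : ℝ) + X / (p : ℝ) * (C0 * (L + Real.log p) / p) := by linarith
    _ = X / ((p : ℝ) * p) * (1 + C0 * (L + Real.log p)) := h3
    _ ≤ X / ((p : ℝ) * p) * (L * s * (1 + 3 * C0)) :=
        mul_le_mul_of_nonneg_left h2 (by positivity)

private lemma bc_mult (X d : ℕ) :
    (((Icc 1 X).filter (fun m => d ∣ m)).card : ℝ) ≤ (X : ℝ) / (d : ℝ) := by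
  have h1 : ((Icc 1 X).filter (fun m => d ∣ m)).card = X / d := by
    have h2 : (Icc 1 X) = Ioc 0 X := by
      ext x
      rw [Finset.mem_Icc, Finset.mem_Ioc]
      omega
    rw [h2]
    exact Nat.Ioc_filter_dvd_card_eq_div X d
  rw [h1]
  exact Nat.cast_div_le

theorem bad_count : ∃ C : ℝ, 0 < C ∧ ∀ (X : ℕ) (z : ℝ), 1 ≤ X → 1 ≤ z →
    (((Icc 1 X).filter fun m => ¬ CY.IsCyclicNumber m ∧ Rough z m).card : ℝ) ≤ C * X * LL X / Real.sqrt z := by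
  obtain ⟨C0, hC0, hin⟩ := inner
  refine ⟨3 * (1 + 3 * C0), by positivity, ?_⟩
  intro X z hX hz
  have hXr : (1 : ℝ) ≤ X := by exact_mod_cast hX
  have hX0 : (0 : ℝ) ≤ X := by linarith
  have hlog : 0 ≤ Real.log X := Real.log_nonneg hXr
  have hLL : 1 ≤ LL X := by
    unfold LL
    have : 0 ≤ Real.log (1 + Real.log X) := Real.log_nonneg (by linarith)
    linarith
  obtain ⟨Z, hZdef⟩ : ∃ Z, Z = ⌊z⌋₊ := ⟨_, rfl⟩
  have hZ1 : 1 ≤ Z := by rw [hZdef]; exact Nat.le_floor (by simpa using hz)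
  have hZz : z < (Z : ℝ) + 1 := by rw [hZdef]; exact Nat.lt_floor_add_one z
  have hZle : (Z : ℝ) ≤ z := by rw [hZdef]; exact Nat.floor_le (by linarith)
  obtain ⟨P, hP⟩ : ∃ P : Finset ℕ, P = (Ioc Z X).filter Nat.Prime := ⟨_, rfl⟩
  obtain ⟨Q, hQ⟩ : ∃ Q : ℕ → Finset ℕ, Q = fun p => (Icc 1 X).filter (fun q => q.Prime ∧ q % p = 1) :=
    ⟨_, rfl⟩
  have hsub : ((Icc 1 X).filter fun m => ¬ CY.IsCyclicNumber m ∧ Rough z m) ⊆
      P.biUnion (fun p => ((Icc 1 X).filter (fun m => p ^ 2 ∣ m)) ∪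
        (Q p).biUnion (fun q => (Icc 1 X).filter (fun m => p * q ∣ m))) := by
    intro m hm
    rw [Finset.mem_filter, Finset.mem_Icc] at hm
    obtain ⟨⟨hm1, hmX⟩, hc, hr⟩ := hm
    obtain ⟨p, hp, hpm, hpq⟩ := dvd_totient m hm1 hc
    have hpX : p ≤ X := le_trans (Nat.le_of_dvd hm1 hpm) hmX
    have hzp : z < p := hr p hp hpm
    have hZp : Z < p := by exact_mod_cast lt_of_le_of_lt hZle hzp
    rw [Finset.mem_biUnion]
    refine ⟨p, ?_, ?_⟩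
    · rw [hP, Finset.mem_filter, Finset.mem_Ioc]
      exact ⟨⟨hZp, hpX⟩, hp⟩
    rw [Finset.mem_union]
    rcases hpq with h2 | ⟨q, hq, hqp, hd⟩
    · left
      rw [Finset.mem_filter, Finset.mem_Icc]
      exact ⟨⟨hm1, hmX⟩, h2⟩
    · right
      rw [Finset.mem_biUnion]
      have hqX : q ≤ X := le_trans (Nat.le_of_dvd hm1 (dvd_trans (dvd_mul_left q p) hd)) hmX
      refine ⟨q, ?_, ?_⟩
      · rw [hQ]
        simp only [Finset.mem_filter, Finset.mem_Icc]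
        exact ⟨⟨hq.one_lt.le, hqX⟩, hq, hqp⟩
      · rw [Finset.mem_filter, Finset.mem_Icc]
        exact ⟨⟨hm1, hmX⟩, hd⟩
  have hcard : (((Icc 1 X).filter fun m => ¬ CY.IsCyclicNumber m ∧ Rough z m).card : ℝ) ≤
      ∑ p ∈ P, ((X : ℝ) / ((p ^ 2 : ℕ) : ℝ) + (X : ℝ) / (p : ℝ) * ∑ q ∈ Q p, 1 / (q : ℝ)) := by
    have h1 := Finset.card_le_card hsub
    have h2 := Finset.card_biUnion_le (s := P) (t := fun p => ((Icc 1 X).filter (fun m => p ^ 2 ∣ m)) ∪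
        (Q p).biUnion (fun q => (Icc 1 X).filter (fun m => p * q ∣ m)))
    have h3 : (((Icc 1 X).filter fun m => ¬ CY.IsCyclicNumber m ∧ Rough z m).card : ℝ) ≤
        ((∑ p ∈ P, (((Icc 1 X).filter (fun m => p ^ 2 ∣ m)) ∪
        (Q p).biUnion (fun q => (Icc 1 X).filter (fun m => p * q ∣ m))).card : ℕ) : ℝ) := by
      exact_mod_cast le_trans h1 h2
    refine le_trans h3 ?_
    rw [Nat.cast_sum]
    refine Finset.sum_le_sum (fun p _ => ?_)
    have h4 := Finset.card_union_le ((Icc 1 X).filter (fun m => p ^ 2 ∣ m))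
      ((Q p).biUnion (fun q => (Icc 1 X).filter (fun m => p * q ∣ m)))
    have h5 := Finset.card_biUnion_le (s := Q p) (t := fun q => (Icc 1 X).filter (fun m => p * q ∣ m))
    have h6 : ((((Icc 1 X).filter (fun m => p ^ 2 ∣ m)) ∪
        (Q p).biUnion (fun q => (Icc 1 X).filter (fun m => p * q ∣ m))).card : ℝ) ≤
        (((Icc 1 X).filter (fun m => p ^ 2 ∣ m)).card : ℝ) +
          ((∑ q ∈ Q p, ((Icc 1 X).filter (fun m => p * q ∣ m)).card : ℕ) : ℝ) := by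
      exact_mod_cast le_trans h4 (Nat.add_le_add_left h5 _)
    refine le_trans h6 (add_le_add (bc_mult X (p ^ 2)) ?_)
    rw [Nat.cast_sum, Finset.mul_sum]
    refine Finset.sum_le_sum (fun q _ => ?_)
    refine le_trans (bc_mult X (p * q)) (le_of_eq ?_)
    push_cast
    rw [div_mul_div_comm, mul_one]
  have hsum : ∑ p ∈ P, ((X : ℝ) / ((p ^ 2 : ℕ) : ℝ) + (X : ℝ) / (p : ℝ) * ∑ q ∈ Q p, 1 / (q : ℝ)) ≤
      ∑ p ∈ P, (X : ℝ) * LL X * (1 + 3 * C0) * (1 / ((p : ℝ) * Real.sqrt (p : ℝ))) := by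
    refine Finset.sum_le_sum (fun p hp => ?_)
    rw [hP, Finset.mem_filter, Finset.mem_Ioc] at hp
    refine bc_term C0 (LL X) X p _ hC0 hLL hX0 hp.2.one_lt.le ?_
    rw [hQ]
    exact hin p hp.2 X hX
  have hPs : ∑ p ∈ P, 1 / ((p : ℝ) * Real.sqrt (p : ℝ)) ≤ 2 / Real.sqrt (Z : ℝ) := by
    refine le_trans ?_ (bc_tail Z hZ1 X)
    rw [hP]
    refine Finset.sum_le_sum_of_subset_of_nonneg (Finset.filter_subset _ _) (fun n _ _ => ?_)
    positivity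
  have hZ0 : (1 : ℝ) ≤ Z := by exact_mod_cast hZ1
  have hz0 : 0 < Real.sqrt z := Real.sqrt_pos.mpr (by linarith)
  have hZs : 0 < Real.sqrt (Z : ℝ) := Real.sqrt_pos.mpr (by linarith)
  have hsq : Real.sqrt z ≤ 3 / 2 * Real.sqrt (Z : ℝ) := by
    rw [Real.sqrt_le_iff]
    refine ⟨by positivity, ?_⟩
    rw [mul_pow, Real.sq_sqrt (by linarith)]
    linarith
  have hfin : 2 / Real.sqrt (Z : ℝ) ≤ 3 / Real.sqrt z := by
    rw [div_le_div_iff₀ hZs hz0]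
    linarith
  have hA : 0 ≤ (X : ℝ) * LL X * (1 + 3 * C0) := by positivity
  calc (((Icc 1 X).filter fun m => ¬ CY.IsCyclicNumber m ∧ Rough z m).card : ℝ)
      ≤ ∑ p ∈ P, (X : ℝ) * LL X * (1 + 3 * C0) * (1 / ((p : ℝ) * Real.sqrt (p : ℝ))) :=
        le_trans hcard hsum
    _ = (X : ℝ) * LL X * (1 + 3 * C0) * ∑ p ∈ P, 1 / ((p : ℝ) * Real.sqrt (p : ℝ)) := by
        rw [Finset.mul_sum]
    _ ≤ (X : ℝ) * LL X * (1 + 3 * C0) * (3 / Real.sqrt z) :=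
        mul_le_mul_of_nonneg_left (le_trans hPs hfin) hA
    _ = 3 * (1 + 3 * C0) * X * LL X / Real.sqrt z := by ring

end Pool.Agent.H69.CP
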