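import Pool.Agent.H69.CP.Shi
import Pool.Agent.H69.CY.Dens

/-!
[H69 CP COA] For all large `n` and all `m ≥ n + C √n log n`: `c (m+1) ^ (1/m) < c (n+1) ^ (1/n)`.
-/

namespace Pool.Agent.H69.CP

open Finset Classical Filter

/-- `t` cyclic numbers in `(c (n+1), c (n+1) + y]` -/
theorem c_add_le {n t y : ℕ}
    (h : t ≤ ((Ioc (CY.c (n + 1)) (CY.c (n + 1) + y)).filter CY.IsCyclicNumber).card) :
    CY.c (n + 1 + t) ≤ CY.c (n + 1) + y := by
  have h1 : Nat.count CY.IsCyclicNumber (CY.c (n + 1) + 1) = n + 1 := by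
    rw [Nat.count_succ]
    have h2 : Nat.count CY.IsCyclicNumber (CY.c (n + 1)) = n := by
      unfold CY.c
      exact Nat.count_nth_of_infinite CY.infinite_cyclic _
    have h3 : CY.IsCyclicNumber (CY.c (n + 1)) := Nat.nth_mem_of_infinite CY.infinite_cyclic _
    rw [h2, if_pos h3]
  have h2 : Nat.count CY.IsCyclicNumber (CY.c (n + 1) + y + 1) =
      Nat.count CY.IsCyclicNumber (CY.c (n + 1) + 1) +
      ((Ioc (CY.c (n + 1)) (CY.c (n + 1) + y)).filter CY.IsCyclicNumber).card := by
    rw [Nat.count_eq_card_filter_range, Nat.count_eq_card_filter_range, ← card_union_of_disjoint]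
    · congr 1
      ext m
      simp only [mem_union, mem_filter, mem_range, mem_Ioc]
      constructor
      · rintro ⟨g1, g2⟩
        rcases Nat.lt_or_ge m (CY.c (n + 1) + 1) with g3 | g3
        · exact Or.inl ⟨g3, g2⟩
        · exact Or.inr ⟨⟨by omega, by omega⟩, g2⟩
      · rintro (⟨g1, g2⟩ | ⟨⟨g1, g3⟩, g2⟩)
        · exact ⟨by omega, g2⟩
        · exact ⟨by omega, g2⟩
    · rw [Finset.disjoint_left]
      intro m g1 g2
      simp only [mem_filter, mem_range, mem_Ioc] at g1 g2
      omega
  have h3 : n + t < Nat.count CY.IsCyclicNumber (CY.c (n + 1) + y + 1) := by omega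
  have h4 := Nat.nth_lt_of_lt_count h3
  have h5 : CY.c (n + 1 + t) = Nat.nth CY.IsCyclicNumber (n + t) := by
    unfold CY.c
    congr 1
    omega
  rw [h5]
  omega

/-- `F n = log c_(n+1) / n` -/
noncomputable def F (n : ℕ) : ℝ := Real.log (CY.c (n + 1)) / n

theorem direct : ∃ C : ℝ, 8 ≤ C ∧ ∃ n1 : ℕ, 1 ≤ n1 ∧ ∀ n t : ℕ, n1 ≤ n →
    C * Real.sqrt n * Real.log n ≤ t → (t : ℝ) ≤ n / Real.log n → F (n + t) < F n := by
  obtain ⟨c2, C2, hc2, hC2, x0, hx020, hS⟩ := cyc_short
  obtain ⟨N1, hN1⟩ := CY.sparse (ε := c2 / 8) (by positivity)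
  have t1 : Tendsto (fun x : ℕ => Real.log (x : ℝ)) atTop atTop :=
    Real.tendsto_log_atTop.comp tendsto_natCast_atTop_atTop
  obtain ⟨n2, hn2⟩ := eventually_atTop.1 (t1.eventually_ge_atTop 8)
  refine ⟨8 * C2, by linarith, max (max n2 x0) (max N1 100), by
    have := le_max_right (max n2 x0) (max N1 100)
    have := le_max_right N1 100
    omega, ?_⟩
  intro n t hn ht1 ht2
  have b1 : n2 ≤ n := le_trans (le_trans (le_max_left _ _) (le_max_left _ _)) hn
  have b2 : x0 ≤ n := le_trans (le_trans (le_max_right _ _) (le_max_left _ _)) hn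
  have b3 : N1 ≤ n := le_trans (le_trans (le_max_left _ _) (le_max_right _ _)) hn
  have b4 : 100 ≤ n := le_trans (le_trans (le_max_right _ _) (le_max_right _ _)) hn
  have hnR : (100 : ℝ) ≤ n := by exact_mod_cast b4
  have hn0 : (0 : ℝ) < n := by linarith
  have hl8 : 8 ≤ Real.log n := hn2 n b1
  set x := CY.c (n + 1) with hx
  have hnx : n + 1 ≤ x := CY.le_c (by omega)
  have hnxR : (n : ℝ) + 1 ≤ x := by exact_mod_cast hnx
  have hx0 : (0 : ℝ) < x := by linarith
  set L := Real.log x with hL
  have hLn : Real.log n ≤ L := Real.log_le_log hn0 (by linarith)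
  have hL0 : 0 < L := by linarith
  have hL2 : L ≤ 2 * Real.log n := by
    have h1 := CY.log_c_le (n := n + 1) (by omega)
    push_cast at h1
    have h2 : Real.log ((n : ℝ) + 1) ≤ Real.log n + 0.7 := by
      have e1 : Real.log ((n : ℝ) + 1) ≤ Real.log (2 * n) := Real.log_le_log (by positivity) (by linarith)
      rw [Real.log_mul (by norm_num) hn0.ne'] at e1
      have := Real.log_two_lt_d9
      linarith
    have h3 : Real.log (Real.log ((n : ℝ) + 1)) ≤ Real.log ((n : ℝ) + 1) / 2 :=
      CY.log_le_half (Real.log_pos (by linarith))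
    have h4 : Real.log (14 : ℝ) ≤ 2.8 := by
      have e1 : Real.log (14 : ℝ) ≤ Real.log (2 ^ 4 : ℝ) := Real.log_le_log (by norm_num) (by norm_num)
      rw [Real.log_pow] at e1
      have := Real.log_two_lt_d9
      push_cast at e1
      linarith
    rw [← hx, ← hL] at h1
    linarith
  have hsp : (n : ℝ) ≤ c2 / 8 * x := by
    have := hN1 (n + 1) (by omega) (by omega)
    push_cast at this
    linarith
  -- t
  have hsn : 1 ≤ Real.sqrt n := Real.one_le_sqrt.2 (by linarith)
  have hsn0 : 0 < Real.sqrt n := by linarith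
  have hsnn : Real.sqrt n * Real.sqrt n = n := Real.mul_self_sqrt hn0.le
  have hsx : Real.sqrt n ≤ Real.sqrt x := Real.sqrt_le_sqrt (by linarith)
  have hsxx : Real.sqrt x * Real.sqrt x = x := Real.mul_self_sqrt hx0.le
  have hsx0 : 0 < Real.sqrt x := by linarith
  have ht64 : (64 : ℝ) ≤ t := by
    refine le_trans ?_ ht1
    calc (64 : ℝ) = 8 * 1 * 8 := by norm_num
      _ ≤ 8 * C2 * Real.sqrt n * Real.log n := by
        have : (8 : ℝ) * 1 ≤ 8 * C2 * Real.sqrt n := by nlinarith
        exact mul_le_mul this hl8 (by norm_num) (by positivity)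
  have ht0 : (0 : ℝ) < t := by linarith
  -- z, y
  set z : ℝ := t * x * L / (2 * n) with hz
  have hz1 : z ≤ x := by
    rw [hz, div_le_iff₀ (by positivity)]
    have h1 : (t : ℝ) * L ≤ 2 * n := by
      have h2 : (t : ℝ) * Real.log n ≤ n := by
        rwa [le_div_iff₀ (by linarith)] at ht2
      nlinarith
    nlinarith
  have hz2 : 2 ≤ z := by
    rw [hz, le_div_iff₀ (by positivity)]
    have h1 : (1 : ℝ) ≤ t * L / 4 := by nlinarith
    have h2 : (2 : ℝ) * (2 * n) ≤ t * L * n := by nlinarith
    have h3 : t * L * n ≤ t * L * x := by gcongr; linarith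
    linarith
  set y := ⌊z⌋₊ with hy
  have hyz : (y : ℝ) ≤ z := Nat.floor_le (by linarith)
  have hyz2 : z / 2 ≤ y := by
    have := Nat.lt_floor_add_one z
    rw [← hy] at this
    linarith
  have hyx : y ≤ x := by exact_mod_cast hyz.trans hz1
  have hy1 : C2 * Real.sqrt x * L ^ 2 ≤ y := by
    refine le_trans ?_ hyz2
    have h1 : 4 * n * C2 * L ≤ t * Real.sqrt x := by
      have h2 : 8 * C2 * Real.sqrt n * (L / 2) ≤ t := by
        refine le_trans ?_ ht1
        have : L / 2 ≤ Real.log n := by linarith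
        gcongr
      calc 4 * n * C2 * L = 8 * C2 * Real.sqrt n * (L / 2) * Real.sqrt n := by
            linear_combination (-4 * C2 * L) * hsnn
        _ ≤ t * Real.sqrt x := by gcongr
    have h3 : z / 2 = (t * Real.sqrt x) * (Real.sqrt x * L / (4 * n)) := by
      calc z / 2 = t * x * L / (4 * n) := by rw [hz]; ring
        _ = t * (Real.sqrt x * Real.sqrt x) * L / (4 * n) := by rw [hsxx]
        _ = (t * Real.sqrt x) * (Real.sqrt x * L / (4 * n)) := by ring
    rw [h3]
    calc C2 * Real.sqrt x * L ^ 2 = (4 * n * C2 * L) * (Real.sqrt x * L / (4 * n)) := by field_simp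
      _ ≤ (t * Real.sqrt x) * (Real.sqrt x * L / (4 * n)) := by gcongr
  have hcnt := hS x y (by omega) hy1 hyx
  have hcnt2 : (t : ℝ) ≤ (((Ioc x (x + y)).filter CY.IsCyclicNumber).card : ℝ) := by
    refine le_trans ?_ hcnt
    rw [le_div_iff₀ hL0]
    have h1 : c2 * (z / 2) ≤ c2 * y := by gcongr
    refine le_trans ?_ h1
    have h2 : c2 * (z / 2) = t * L * (c2 * x / (4 * n)) := by
      rw [hz]; field_simp; ring
    rw [h2]
    have h3 : 1 ≤ c2 * x / (4 * n) := by
      rw [le_div_iff₀ (by positivity)]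
      linarith
    have h4 : 0 < t * L := by positivity
    nlinarith
  have hc := c_add_le (n := n) (t := t) (y := y) (by rw [← hx]; exact_mod_cast hcnt2)
  rw [← hx] at hc
  -- conclusion
  unfold F
  have hpos : (0 : ℝ) < CY.c (n + 1 + t) := by
    have := CY.le_c (n := n + 1 + t) (by omega)
    have : 0 < CY.c (n + 1 + t) := by omega
    exact_mod_cast this
  have hlog : Real.log (CY.c (n + 1 + t)) ≤ L + z / x := by
    have h1 : Real.log (CY.c (n + 1 + t)) ≤ Real.log (x * (1 + z / x)) := by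
      apply Real.log_le_log hpos
      have h2 : (x : ℝ) * (1 + z / x) = x + z := by field_simp
      rw [h2]
      have h3 : (CY.c (n + 1 + t) : ℝ) ≤ x + y := by exact_mod_cast hc
      linarith
    have h4 : 0 < 1 + z / x := by positivity
    rw [Real.log_mul hx0.ne' h4.ne'] at h1
    have h5 := Real.log_le_sub_one_of_pos h4
    linarith
  have hzx : z / x = t * L / (2 * n) := by
    rw [hz]; field_simp
  rw [hzx] at hlog
  have e : CY.c (n + t + 1) = CY.c (n + 1 + t) := by congr 1; omega
  rw [e, ← hx, ← hL]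
  push_cast
  rw [div_lt_div_iff₀ (by positivity) hn0]
  have h1 : Real.log (CY.c (n + 1 + t)) * n ≤ (L + t * L / (2 * n)) * n := by gcongr
  have h2 : (L + t * L / (2 * n)) * n = L * n + t * L / 2 := by field_simp
  have h3 : 0 < t * L := by positivity
  rw [h2] at h1
  nlinarith

theorem sqrt_scale : ∃ C : ℝ, 0 < C ∧ ∃ n0 : ℕ, 1 ≤ n0 ∧ ∀ n m : ℕ, n0 ≤ n →
    (n : ℝ) + C * Real.sqrt n * Real.log n ≤ m → F m < F n := by
  obtain ⟨C, hC, n1, hn1, hd⟩ := direct
  have t1 : Tendsto (fun x : ℕ => (x : ℝ)) atTop atTop := tendsto_natCast_atTop_atTop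
  have e1 : ∀ᶠ n : ℕ in atTop, 6 * C * Real.log n ^ 2 ≤ (n : ℝ) ^ (1 / 2 : ℝ) := by
    have h := (isLittleO_log_rpow_rpow_atTop (2 : ℝ) (show (0 : ℝ) < 1 / 2 by norm_num)).def
      (show (0 : ℝ) < 1 / (6 * C) by positivity)
    filter_upwards [t1.eventually h, eventually_ge_atTop 3] with x hx hx3
    have hx3' : (3 : ℝ) ≤ x := by exact_mod_cast hx3
    have hl : 0 ≤ Real.log x := Real.log_nonneg (by linarith)
    rw [Real.norm_eq_abs, Real.norm_eq_abs, abs_of_nonneg (by positivity), abs_of_nonneg (by positivity)] at hx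
    have hx' : Real.log x ^ 2 ≤ 1 / (6 * C) * (x : ℝ) ^ (1 / 2 : ℝ) := by
      rw [← Real.rpow_natCast]
      exact_mod_cast hx
    calc 6 * C * Real.log x ^ 2 ≤ 6 * C * (1 / (6 * C) * (x : ℝ) ^ (1 / 2 : ℝ)) := by gcongr
      _ = (x : ℝ) ^ (1 / 2 : ℝ) := by field_simp
  obtain ⟨n2, hn2⟩ := eventually_atTop.1 e1
  refine ⟨C, by linarith, max (max n1 n2) 100, by have := le_max_right (max n1 n2) 100; omega, ?_⟩
  have main : ∀ k n : ℕ, max (max n1 n2) 100 ≤ n → C * Real.sqrt n * Real.log n ≤ k → F (n + k) < F n := by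
    intro k
    induction k using Nat.strong_induction_on with
    | _ k ih =>
      intro n hn hk
      have b1 : n1 ≤ n := le_trans (le_trans (le_max_left _ _) (le_max_left _ _)) hn
      have b2 : n2 ≤ n := le_trans (le_trans (le_max_right _ _) (le_max_left _ _)) hn
      have b3 : 100 ≤ n := le_trans (le_max_right _ _) hn
      have hnR : (100 : ℝ) ≤ n := by exact_mod_cast b3
      have hn0 : (0 : ℝ) < n := by linarith
      have hl1 : 1 ≤ Real.log n := CY.log_ge_one (by linarith)
      have hs1 : 1 ≤ Real.sqrt n := Real.one_le_sqrt.2 (by linarith)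
      have hsn : Real.sqrt n * Real.sqrt n = n := Real.mul_self_sqrt hn0.le
      have hbig : 6 * C * Real.sqrt n * Real.log n ≤ n / Real.log n := by
        rw [le_div_iff₀ (by linarith)]
        have := hn2 n b2
        rw [← Real.sqrt_eq_rpow] at this
        calc 6 * C * Real.sqrt n * Real.log n * Real.log n = Real.sqrt n * (6 * C * Real.log n ^ 2) := by ring
          _ ≤ Real.sqrt n * Real.sqrt n := by gcongr
          _ = n := hsn
      rcases le_or_gt (k : ℝ) (n / Real.log n) with hc | hc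
      · exact hd n k b1 hk hc
      · set s := ⌈C * Real.sqrt n * Real.log n⌉₊ with hs
        set G : ℝ := C * Real.sqrt n * Real.log n with hG
        have hG1 : 1 ≤ G := by
          rw [hG]
          have : (1 : ℝ) ≤ C * Real.sqrt n := by nlinarith
          nlinarith
        have hs2 : (s : ℝ) < G + 1 := Nat.ceil_lt_add_one (by linarith)
        have hs3 : G ≤ s := Nat.le_ceil _
        have h6 : 6 * C * Real.sqrt n * Real.log n = 6 * G := by rw [hG]; ring
        rw [h6] at hbig
        have hd1 := hd n s b1 hs3 (by linarith)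
        have hsk : s ≤ k := by
          have : (s : ℝ) ≤ k := by linarith
          exact_mod_cast this
        have hs0 : 0 < s := by
          have : (0 : ℝ) < s := by linarith
          exact_mod_cast this
        have hsn' : (s : ℝ) ≤ n := by
          have : n / Real.log n ≤ n := div_le_self hn0.le hl1
          linarith
        have h7 := ih (k - s) (by omega) (n + s) (by omega) (by
          push_cast
          rw [Nat.cast_sub hsk]
          have g1 : Real.sqrt ((n : ℝ) + s) ≤ 2 * Real.sqrt n := by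
            have : Real.sqrt ((n : ℝ) + s) ≤ Real.sqrt (2 ^ 2 * n) := Real.sqrt_le_sqrt (by linarith)
            rw [Real.sqrt_mul (by positivity), Real.sqrt_sq (by norm_num)] at this
            exact this
          have g2 : Real.log ((n : ℝ) + s) ≤ 2 * Real.log n := by
            have e1 : Real.log ((n : ℝ) + s) ≤ Real.log (n * n) := Real.log_le_log (by positivity) (by nlinarith)
            rw [Real.log_mul hn0.ne' hn0.ne'] at e1
            linarith
          have g3 : C * Real.sqrt ((n : ℝ) + s) * Real.log ((n : ℝ) + s) ≤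
              C * (2 * Real.sqrt n) * (2 * Real.log n) := by
            have : 0 ≤ Real.log ((n : ℝ) + s) := Real.log_nonneg (by linarith)
            gcongr
          have g4 : C * (2 * Real.sqrt n) * (2 * Real.log n) = 4 * G := by rw [hG]; ring
          linarith)
        have h8 : n + s + (k - s) = n + k := by omega
        rw [h8] at h7
        exact h7.trans hd1
  intro n m hn hm
  have hnm : n ≤ m := by
    have h1 : 0 ≤ C * Real.sqrt n * Real.log n := by
      have : 0 ≤ Real.log (n : ℝ) := Real.log_natCast_nonneg n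
      positivity
    have : (n : ℝ) ≤ m := by linarith
    exact_mod_cast this
  have h := main (m - n) n hn (by rw [Nat.cast_sub hnm]; linarith)
  rwa [Nat.add_sub_cancel' hnm] at h

theorem sqrt_ineq : ∃ C : ℝ, 0 < C ∧ ∃ n0 : ℕ, 1 ≤ n0 ∧ ∀ n m : ℕ, n0 ≤ n →
    (n : ℝ) + C * Real.sqrt n * Real.log n ≤ m →
    (CY.c (m + 1) : ℝ) ^ (1 / (m : ℝ)) < (CY.c (n + 1) : ℝ) ^ (1 / (n : ℝ)) := by
  obtain ⟨C, hC, n0, hn0, h⟩ := sqrt_scale
  refine ⟨C, hC, n0, hn0, fun n m hn hm => ?_⟩
  have h1 := h n m hn hm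
  have hpos : ∀ k : ℕ, (0 : ℝ) < CY.c (k + 1) := by
    intro k
    have := CY.le_c (n := k + 1) (by omega)
    have : 0 < CY.c (k + 1) := by omega
    exact_mod_cast this
  rw [← Real.log_lt_log_iff (Real.rpow_pos_of_pos (hpos m) _) (Real.rpow_pos_of_pos (hpos n) _),
    Real.log_rpow (hpos m), Real.log_rpow (hpos n), one_div_mul_eq_div, one_div_mul_eq_div]
  exact h1

end Pool.Agent.H69.CP
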