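import Pool.Agent.H69.CY.Basic

/-!
[H69 CP] MP_a37e4a_nt: the number of violations of Firoozbakht's inequality for cyclic numbers up to `x` is
`O(x / (log x)^(1+d))` for some `d > 0`.

Proof. A violation `n` (with factor `lam`) has `c (n+1) - c n >= lam log (c n)`. For `c n > sqrt x` the gap is `>= 2 h + 1` with
`h = floor (lam log x / 5)`, so it contains a whole block `Ioc (k h) ((k+1) h)` without cyclic numbers (`Gap`). The block contains
`>= c1 h / log h` numbers without prime factors `<= h^a` (`Rgh`, fundamental lemma). None of them is cyclic; the number of the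
numbers `<= X` which are not cyclic and have no prime factor `<= z` is `<= C X (1 + log (1 + log X)) / sqrt z` (`Cnt`: such a
number is divisible by `p^2` or by `p q` with `q` congruent to `1` modulo `p`, `p > z`; Brun-Titchmarsh in `Inn`).
-/

namespace Pool.Agent.H69.CP

open Finset Classical

/-- all prime factors of `m` are larger than `z` -/
def Rough (z : ℝ) (m : ℕ) : Prop := ∀ p : ℕ, p.Prime → p ∣ m → z < p

/-- the factor `1 + log (1 + log X)` -/
noncomputable def LL (X : ℕ) : ℝ := 1 + Real.log (1 + Real.log X)

end Pool.Agent.H69.CP
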