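import Pool.Agent.H69.CP.Def

/-!
[H69 CP GAP] Large gaps between cyclic numbers and empty blocks.
-/

namespace Pool.Agent.H69.CP

open Finset Classical

theorem no_between {n m : ℕ} (hn : 1 ≤ n) (h1 : CY.c n < m) (h2 : m < CY.c (n + 1)) :
    ¬ CY.IsCyclicNumber m := by
  intro hm
  unfold CY.c at h1 h2
  have h3 : n + 1 - 1 = (n - 1) + 1 := by omega
  rw [h3] at h2
  have h4 := Nat.lt_nth_iff_count_lt CY.infinite_cyclic (a := m) (b := (n - 1) + 1)
  have h5 : Nat.nth CY.IsCyclicNumber (Nat.count CY.IsCyclicNumber m) = m := Nat.nth_count hm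
  have h6 : n - 1 < Nat.count CY.IsCyclicNumber m := by
    by_contra hcon
    push Not at hcon
    have := CY.nth_mono.monotone hcon
    omega
  have h7 : Nat.count CY.IsCyclicNumber m < (n - 1) + 1 := by
    by_contra hcon
    push Not at hcon
    have := CY.nth_mono.monotone hcon
    omega
  omega

theorem c_mono {n m : ℕ} (hn : 1 ≤ n) (h : n ≤ m) : CY.c n ≤ CY.c m := by
  unfold CY.c
  exact CY.nth_mono.monotone (by omega)

theorem gap_blocks (X h : ℕ) (hh : 1 ≤ h) :
    {n : ℕ | 1 ≤ n ∧ CY.c n ≤ X ∧ CY.c n + 2 * h ≤ CY.c (n + 1)}.ncard ≤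
      ((Icc 1 (X / h + 1)).filter fun k => ∀ m ∈ Ico (k * h) ((k + 1) * h), ¬ CY.IsCyclicNumber m).card := by
  rw [← Set.ncard_coe_finset]
  refine Set.ncard_le_ncard_of_injOn (fun n => CY.c n / h + 1) ?_ ?_ (Finset.finite_toSet _)
  · rintro n ⟨h1, h2, h3⟩
    have hd := Nat.div_add_mod (CY.c n) h
    have hm := Nat.mod_lt (CY.c n) (show 0 < h by omega)
    simp only [coe_filter, mem_Icc, Set.mem_ofPred_eq]
    refine ⟨⟨Nat.le_add_left _ _, ?_⟩, ?_⟩
    · have := Nat.div_le_div_right (c := h) h2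
      omega
    · intro m hm2
      rw [mem_Ico] at hm2
      have e1 : (CY.c n / h + 1) * h = h * (CY.c n / h) + h := by ring
      have e2 : (CY.c n / h + 1 + 1) * h = h * (CY.c n / h) + 2 * h := by ring
      rw [e1, e2] at hm2
      exact no_between h1 (by omega) (by omega)
  · rintro n ⟨h1, h2, h3⟩ n' ⟨h1', h2', h3'⟩ heq
    simp only at heq
    have hd := Nat.div_add_mod (CY.c n) h
    have hm := Nat.mod_lt (CY.c n) (show 0 < h by omega)
    have hd' := Nat.div_add_mod (CY.c n') h
    have hm' := Nat.mod_lt (CY.c n') (show 0 < h by omega)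
    have e : CY.c n / h = CY.c n' / h := by omega
    rw [e] at hd
    rcases lt_trichotomy n n' with hlt | heq2 | hlt
    · have := c_mono (n := n + 1) (m := n') (by omega) hlt
      omega
    · exact heq2
    · have := c_mono (n := n' + 1) (m := n) (by omega) hlt
      omega

end Pool.Agent.H69.CP
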