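import Pool.Agent.H69.CP.Coa

/-!
[H69 CP GPA] `c (n+1) - c n ≤ C √(c n) (log (c n))^2` for all `n ≥ 2`.
-/

namespace Pool.Agent.H69.CP

open Finset Classical Filter

theorem gap_all : ∃ C : ℝ, 0 < C ∧ ∀ n : ℕ, 2 ≤ n →
    (CY.c (n + 1) : ℝ) - CY.c n ≤ C * Real.sqrt (CY.c n) * Real.log (CY.c n) ^ 2 := by
  obtain ⟨c2, C2, hc2, hC2, x0, hx020, hS⟩ := cyc_short
  have t1 : Tendsto (fun x : ℕ => (x : ℝ)) atTop atTop := tendsto_natCast_atTop_atTop
  have e1 : ∀ᶠ x : ℕ in atTop, 2 * C2 * Real.log x ^ 2 ≤ (x : ℝ) ^ (1 / 2 : ℝ) := by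
    have h := (isLittleO_log_rpow_rpow_atTop (2 : ℝ) (show (0 : ℝ) < 1 / 2 by norm_num)).def
      (show (0 : ℝ) < 1 / (2 * C2) by positivity)
    filter_upwards [t1.eventually h, eventually_ge_atTop 3] with x hx hx3
    have hx3' : (3 : ℝ) ≤ x := by exact_mod_cast hx3
    have hl : 0 ≤ Real.log x := Real.log_nonneg (by linarith)
    rw [Real.norm_eq_abs, Real.norm_eq_abs, abs_of_nonneg (by positivity), abs_of_nonneg (by positivity)] at hx
    have hx' : Real.log x ^ 2 ≤ 1 / (2 * C2) * (x : ℝ) ^ (1 / 2 : ℝ) := by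
      rw [← Real.rpow_natCast]
      exact_mod_cast hx
    calc 2 * C2 * Real.log x ^ 2 ≤ 2 * C2 * (1 / (2 * C2) * (x : ℝ) ^ (1 / 2 : ℝ)) := by gcongr
      _ = (x : ℝ) ^ (1 / 2 : ℝ) := by field_simp
  obtain ⟨x1, hx1⟩ := eventually_atTop.1 e1
  set X := max (max x0 x1) 20 with hX
  -- a bound for the small n
  set M : ℝ := (CY.c (X + 1) : ℝ) with hM
  have hM0 : 0 < M := by
    rw [hM]
    have := CY.le_c (n := X + 1) (by omega)
    have : 0 < CY.c (X + 1) := by omega
    exact_mod_cast this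
  refine ⟨2 * C2 + 4 * M, by positivity, ?_⟩
  intro n hn
  set x := CY.c n with hx
  have hnx : n ≤ x := CY.le_c (by omega)
  have hx2 : (2 : ℝ) ≤ x := by exact_mod_cast hn.trans hnx
  have hx0 : (0 : ℝ) < x := by linarith
  have hs1 : 1 ≤ Real.sqrt x := Real.one_le_sqrt.2 (by linarith)
  have hl2 : (0.69 : ℝ) ≤ Real.log x := by
    have h1 : Real.log 2 ≤ Real.log x := Real.log_le_log (by norm_num) hx2
    have := Real.log_two_gt_d9
    linarith
  rcases Nat.lt_or_ge x X with h | h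
  · have h1 : CY.c (n + 1) ≤ CY.c (X + 1) := by
      unfold CY.c
      exact CY.nth_mono.monotone (by omega)
    have h2 : (CY.c (n + 1) : ℝ) ≤ M := by rw [hM]; exact_mod_cast h1
    have h3 : (1 / 4 : ℝ) ≤ Real.sqrt x * Real.log x ^ 2 := by
      have h4 : (1 / 4 : ℝ) ≤ Real.log x ^ 2 := by nlinarith
      nlinarith
    calc (CY.c (n + 1) : ℝ) - x ≤ 4 * M * (1 / 4) := by linarith
      _ ≤ 4 * M * (Real.sqrt x * Real.log x ^ 2) := by gcongr
      _ ≤ (2 * C2 + 4 * M) * Real.sqrt x * Real.log x ^ 2 := by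
        have : 0 ≤ 2 * C2 * (Real.sqrt x * Real.log x ^ 2) := by positivity
        nlinarith
  · have b0 : x0 ≤ x := le_trans (le_trans (le_max_left _ _) (le_max_left _ _)) h
    have b1 : x1 ≤ x := le_trans (le_trans (le_max_right _ _) (le_max_left _ _)) h
    have b2 : 20 ≤ x := le_trans (le_max_right _ _) h
    have hxR : (20 : ℝ) ≤ x := by exact_mod_cast b2
    have hl1 : 1 ≤ Real.log x := CY.log_ge_one (by linarith)
    set y := ⌈C2 * Real.sqrt x * Real.log x ^ 2⌉₊ with hy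
    set G : ℝ := C2 * Real.sqrt x * Real.log x ^ 2 with hG
    have hG1 : 1 ≤ G := by
      have h4 : 1 ≤ Real.log x ^ 2 := by nlinarith
      have h5 : 1 ≤ C2 * Real.sqrt x := by nlinarith
      rw [hG]
      nlinarith
    have hy1 : G ≤ y := Nat.le_ceil _
    have hy2 : (y : ℝ) < G + 1 := Nat.ceil_lt_add_one (by linarith)
    have hss : Real.sqrt x * Real.sqrt x = x := Real.mul_self_sqrt hx0.le
    have hyx : y ≤ x := by
      have h4 := hx1 x b1
      rw [← Real.sqrt_eq_rpow] at h4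
      have h5 : 2 * G ≤ x := by
        calc 2 * G = Real.sqrt x * (2 * C2 * Real.log x ^ 2) := by rw [hG]; ring
          _ ≤ Real.sqrt x * Real.sqrt x := by gcongr
          _ = x := hss
      have h6 : (y : ℝ) ≤ x := by linarith
      exact_mod_cast h6
    have hcnt := hS x y b0 hy1 hyx
    have hy0 : (0 : ℝ) < y := by linarith
    have hpos : 0 < c2 * y / Real.log x := by positivity
    have hcard : 1 ≤ ((Ioc x (x + y)).filter CY.IsCyclicNumber).card := by
      have : (0 : ℝ) < (((Ioc x (x + y)).filter CY.IsCyclicNumber).card : ℝ) := lt_of_lt_of_le hpos hcnt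
      have : 0 < ((Ioc x (x + y)).filter CY.IsCyclicNumber).card := by exact_mod_cast this
      omega
    have e : n - 1 + 1 = n := by omega
    have hc := c_add_le (n := n - 1) (t := 1) (y := y) (by rw [e, ← hx]; exact hcard)
    rw [e, ← hx] at hc
    have hc' : (CY.c (n + 1) : ℝ) ≤ x + y := by exact_mod_cast hc
    calc (CY.c (n + 1) : ℝ) - x ≤ 2 * G := by linarith
      _ = 2 * C2 * (Real.sqrt x * Real.log x ^ 2) := by rw [hG]; ring
      _ ≤ (2 * C2 + 4 * M) * Real.sqrt x * Real.log x ^ 2 := by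
        have : 0 ≤ 4 * M * (Real.sqrt x * Real.log x ^ 2) := by positivity
        nlinarith

end Pool.Agent.H69.CP
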