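import Pool.Agent.H69.CP.Def
import Pool.Agent.H5.W.BT

/-!
[H69 CP INN] The sum of `1/q` over the primes `q <= X`, `q` congruent to `1` modulo the prime `p`.

Proof. Primes `q <= p^6`: `q = 1 + k p`, `1 <= k <= p^5`, so `1/q <= 1/(k p)` and the sum is `<= (1 + log (p^5)) / p`
(harmonic sum). Primes `q > p^6`: for `i < I` the primes in `Ioc (p^(6*2^i)) (p^(12*2^i)) = Ioc (J^6) (J^12)`, `J = p^(2^i)`, have
sum `<= 9 * 6 * rho p / p <= 81 / p` by `Pool.Agent.H5.W.bt_log` with `J`, `a = 6`, `b = 12`, `q = p`, `u = 1`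
(`p <= J^(6-5) = J`; `rho p = 1 + 1/p`). These intervals cover `(p^6, X]`, `I = Nat.log 2 (Nat.log 2 X) + 1 <= 3 LL X`. (helper13)
-/

namespace Pool.Agent.H69.CP

open Finset Classical

private theorem inn_harm (n : ℕ) : ∑ k ∈ Icc 1 n, 1 / (k : ℝ) ≤ 1 + Real.log n := by
  have h := harmonic_le_one_add_log n
  rw [harmonic_eq_sum_Icc] at h
  push_cast at h
  simpa [one_div] using h

private theorem inn_small (p : ℕ) (hp : p.Prime) :
    ∑ q ∈ (Icc 1 (p ^ 6)).filter (fun q => q.Prime ∧ q % p = 1), 1 / (q : ℝ) ≤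
      (1 + 5 * Real.log p) / p := by
  have hp0 : 0 < p := hp.pos
  have hpR : (0 : ℝ) < p := by exact_mod_cast hp0
  set S := (Icc 1 (p ^ 6)).filter (fun q => q.Prime ∧ q % p = 1) with hS
  have hk : ∀ q ∈ S, 1 ≤ q / p ∧ q / p ≤ p ^ 5 ∧ p * (q / p) + 1 = q := by
    intro q hq
    rw [hS, mem_filter, mem_Icc] at hq
    obtain ⟨⟨h1, h2⟩, h3, h4⟩ := hq
    have h5 : p * (q / p) + q % p = q := Nat.div_add_mod q p
    rw [h4] at h5
    refine ⟨?_, ?_, h5⟩
    · by_contra hc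
      have h6 : q / p = 0 := Nat.lt_one_iff.mp (not_le.mp hc)
      rw [h6] at h5
      have := h3.two_le
      omega
    · exact Nat.div_le_of_le_mul (by rw [← pow_succ']; exact h2)
  have hinj : Set.InjOn (fun q => q / p) (S : Set ℕ) := by
    intro a ha b hb hab
    have h1 := (hk a ha).2.2
    have h2 := (hk b hb).2.2
    have h3 : a / p = b / p := hab
    rw [h3] at h1
    omega
  calc ∑ q ∈ S, 1 / (q : ℝ) ≤ ∑ q ∈ S, 1 / (((q / p : ℕ) : ℝ) * p) := by
        refine sum_le_sum fun q hq => ?_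
        obtain ⟨h1, h2, h3⟩ := hk q hq
        have h4 : (((q / p : ℕ) : ℝ)) * p ≤ q := by
          have h7 : (q / p) * p ≤ q := Nat.div_mul_le_self q p
          exact_mod_cast h7
        have h5 : (1 : ℝ) ≤ ((q / p : ℕ) : ℝ) := by exact_mod_cast h1
        exact one_div_le_one_div_of_le (by positivity) h4
    _ = ∑ k ∈ S.image (fun q => q / p), 1 / ((k : ℝ) * p) := by
        rw [sum_image hinj]
    _ ≤ ∑ k ∈ Icc 1 (p ^ 5), 1 / ((k : ℝ) * p) := by
        refine sum_le_sum_of_subset_of_nonneg ?_ (fun _ _ _ => by positivity)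
        intro k hk'
        obtain ⟨q, hq, rfl⟩ := mem_image.1 hk'
        exact mem_Icc.2 ⟨(hk q hq).1, (hk q hq).2.1⟩
    _ = (∑ k ∈ Icc 1 (p ^ 5), 1 / (k : ℝ)) / p := by
        rw [sum_div]
        refine sum_congr rfl fun k _ => ?_
        rw [div_div]
    _ ≤ (1 + Real.log ((p ^ 5 : ℕ) : ℝ)) / p :=
        div_le_div_of_nonneg_right (inn_harm _) hpR.le
    _ = (1 + 5 * Real.log p) / p := by
        push_cast
        rw [Real.log_pow]
        norm_num

private theorem inn_rho (p : ℕ) (hp : p.Prime) : Pool.Agent.H5.W.rho p ≤ 3 / 2 := by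
  unfold Pool.Agent.H5.W.rho
  rw [hp.primeFactors, prod_singleton]
  have h2 : (2 : ℝ) ≤ p := by exact_mod_cast hp.two_le
  have h3 : 1 / (p : ℝ) ≤ 1 / 2 := one_div_le_one_div_of_le (by norm_num) h2
  linarith

private theorem inn_block (p : ℕ) (hp : p.Prime) (i : ℕ) :
    ∑ q ∈ (Ioc (p ^ (6 * 2 ^ i)) (p ^ (12 * 2 ^ i))).filter (fun q => q.Prime ∧ q % p = 1),
      1 / (q : ℝ) ≤ 81 / p := by
  have hpR : (0 : ℝ) < p := by exact_mod_cast hp.pos
  have hJ : p ≤ p ^ (2 ^ i) := Nat.le_self_pow (by positivity) p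
  have h := Pool.Agent.H5.W.bt_log 6 12 (p ^ (2 ^ i)) p 1 (hp.two_le.trans hJ) (by norm_num)
    (by norm_num) hp.pos (by simpa using hJ)
  have e1 : (p ^ (2 ^ i)) ^ 6 = p ^ (6 * 2 ^ i) := by rw [← pow_mul, Nat.mul_comm]
  have e2 : (p ^ (2 ^ i)) ^ 12 = p ^ (12 * 2 ^ i) := by rw [← pow_mul, Nat.mul_comm]
  rw [e1, e2] at h
  have e3 : (Ioc (p ^ (6 * 2 ^ i)) (p ^ (12 * 2 ^ i))).filter (fun q => q.Prime ∧ q % p = 1) =
      (Ioc (p ^ (6 * 2 ^ i)) (p ^ (12 * 2 ^ i))).filter (fun q => q.Prime ∧ q ≡ 1 [MOD p]) := by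
    apply filter_congr
    intro q _
    have : 1 % p = 1 := Nat.mod_eq_of_lt hp.one_lt
    simp only [Nat.ModEq, this]
  rw [e3]
  refine h.trans ?_
  have h2 := inn_rho p hp
  rw [div_le_div_iff_of_pos_right hpR]
  norm_num
  linarith

private theorem inn_I (X : ℕ) : ((Nat.log 2 (Nat.log 2 X) + 1 : ℕ) : ℝ) ≤ 3 * LL X := by
  have hl2 : 0.6931471803 < Real.log 2 := Real.log_two_gt_d9
  rcases Nat.eq_zero_or_pos (Nat.log 2 X) with h0 | h0
  · rw [h0]
    simp only [Nat.log_zero_right, zero_add, Nat.cast_one]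
    have h1 : 0 ≤ Real.log (X : ℝ) := Real.log_natCast_nonneg X
    have h2 : 0 ≤ Real.log (1 + Real.log X) := Real.log_nonneg (by linarith)
    unfold LL
    linarith
  · have hX0 : X ≠ 0 := by
      rintro rfl
      simp at h0
    have hXR : (0 : ℝ) < X := by exact_mod_cast Nat.pos_of_ne_zero hX0
    have h1 : ((2 : ℝ)) ^ (Nat.log 2 X) ≤ X := by
      exact_mod_cast Nat.pow_log_le_self 2 hX0
    have h3 := Real.log_le_log (by positivity) h1
    rw [Real.log_pow] at h3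
    have h4 : ((2 : ℝ)) ^ (Nat.log 2 (Nat.log 2 X)) ≤ (Nat.log 2 X : ℕ) := by
      exact_mod_cast Nat.pow_log_le_self 2 h0.ne'
    have hm0 : (0 : ℝ) < (Nat.log 2 X : ℕ) := by exact_mod_cast h0
    have h5 := Real.log_le_log (by positivity) h4
    rw [Real.log_pow] at h5
    have h6 : (((Nat.log 2 X : ℕ)) : ℝ) ≤ 2 * (1 + Real.log X) := by
      nlinarith
    have h7 : Real.log ((Nat.log 2 X : ℕ) : ℝ) ≤ Real.log (2 * (1 + Real.log X)) :=
      Real.log_le_log hm0 h6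
    have h8 : 0 ≤ Real.log (X : ℝ) := Real.log_natCast_nonneg X
    rw [Real.log_mul (by norm_num) (by linarith)] at h7
    have h9 : Real.log 2 ≤ 1 := by
      have := Real.log_two_lt_d9
      linarith
    have h10 : 0 ≤ Real.log (1 + Real.log X) := Real.log_nonneg (by linarith)
    have h11 : (0 : ℝ) ≤ (Nat.log 2 (Nat.log 2 X) : ℕ) := Nat.cast_nonneg _
    unfold LL
    push_cast
    nlinarith

theorem inner : ∃ C : ℝ, 0 < C ∧ ∀ p : ℕ, p.Prime → ∀ X : ℕ, 1 ≤ X →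
    ∑ q ∈ (Icc 1 X).filter (fun q => q.Prime ∧ q % p = 1), 1 / (q : ℝ) ≤ C * (LL X + Real.log p) / p := by
  refine ⟨244, by norm_num, ?_⟩
  intro p hp X hX
  have hpR : (0 : ℝ) < p := by exact_mod_cast hp.pos
  set I := Nat.log 2 (Nat.log 2 X) + 1 with hI
  have hsub : (Icc 1 X).filter (fun q => q.Prime ∧ q % p = 1) ⊆
      (Icc 1 (p ^ 6)).filter (fun q => q.Prime ∧ q % p = 1) ∪
      (range I).biUnion (fun i => (Ioc (p ^ (6 * 2 ^ i)) (p ^ (12 * 2 ^ i))).filter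
        (fun q => q.Prime ∧ q % p = 1)) := by
    intro q hq
    rw [mem_filter, mem_Icc] at hq
    obtain ⟨⟨h1, h2⟩, h3⟩ := hq
    rw [mem_union]
    by_cases h6 : q ≤ p ^ 6
    · left
      rw [mem_filter, mem_Icc]
      exact ⟨⟨h1, h6⟩, h3⟩
    · right
      have hex : ∃ i, q ≤ p ^ (6 * 2 ^ i) := by
        refine ⟨q, ?_⟩
        have a1 : q < 2 ^ q := Nat.lt_two_pow_self
        have a2 : q ≤ 6 * 2 ^ q := by omega
        calc q ≤ 2 ^ q := a1.le
          _ ≤ 2 ^ (6 * 2 ^ q) := Nat.pow_le_pow_right (by norm_num) a2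
          _ ≤ p ^ (6 * 2 ^ q) := Nat.pow_le_pow_left hp.two_le _
      have hf := Nat.find_spec hex
      obtain ⟨j, hj⟩ : ∃ j, Nat.find hex = j + 1 := by
        rcases Nat.eq_zero_or_pos (Nat.find hex) with h0 | h0
        · rw [h0] at hf
          simp at hf
          omega
        · exact ⟨Nat.find hex - 1, by omega⟩
      have hmin : ¬ q ≤ p ^ (6 * 2 ^ j) := Nat.find_min hex (by omega)
      rw [hj] at hf
      rw [mem_biUnion]
      refine ⟨j, ?_, ?_⟩
      · rw [mem_range, hI]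
        have b1 : 2 ^ (2 ^ j) ≤ X := by
          calc 2 ^ (2 ^ j) ≤ p ^ (2 ^ j) := Nat.pow_le_pow_left hp.two_le _
            _ ≤ p ^ (6 * 2 ^ j) := Nat.pow_le_pow_right hp.pos (by omega)
            _ ≤ q := (not_le.1 hmin).le
            _ ≤ X := h2
        have b2 : 2 ^ j ≤ Nat.log 2 X := Nat.le_log_of_pow_le (by norm_num) b1
        have b3 : j ≤ Nat.log 2 (Nat.log 2 X) := Nat.le_log_of_pow_le (by norm_num) b2
        omega
      · rw [mem_filter, mem_Ioc]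
        refine ⟨⟨not_le.1 hmin, ?_⟩, h3⟩
        have e : 6 * 2 ^ (j + 1) = 12 * 2 ^ j := by
          rw [pow_succ]
          ring
        rwa [e] at hf
  have hnn : ∀ q : ℕ, (0 : ℝ) ≤ 1 / (q : ℝ) := fun q => by positivity
  have s1 := sum_le_sum_of_subset_of_nonneg (f := fun q : ℕ => 1 / (q : ℝ)) hsub
    (fun q _ _ => hnn q)
  have s2 : ∀ A B : Finset ℕ, ∑ q ∈ A ∪ B, 1 / (q : ℝ) ≤ ∑ q ∈ A, 1 / (q : ℝ) + ∑ q ∈ B, 1 / (q : ℝ) := by
    intro A B
    have h1 := Finset.sum_union_inter (s₁ := A) (s₂ := B) (f := fun q : ℕ => 1 / (q : ℝ))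
    have h2 : 0 ≤ ∑ q ∈ A ∩ B, 1 / (q : ℝ) := sum_nonneg (fun a _ => hnn a)
    linarith
  have s3 := Pool.Agent.H5.W.sum_biUnion_le' (range I)
    (fun i => (Ioc (p ^ (6 * 2 ^ i)) (p ^ (12 * 2 ^ i))).filter
        (fun q => q.Prime ∧ q % p = 1)) (fun q : ℕ => 1 / (q : ℝ)) hnn
  have s4 : ∑ i ∈ range I, ∑ q ∈ (Ioc (p ^ (6 * 2 ^ i)) (p ^ (12 * 2 ^ i))).filter
        (fun q => q.Prime ∧ q % p = 1), 1 / (q : ℝ) ≤ I * (81 / p) := by
    refine (sum_le_sum fun i _ => inn_block p hp i).trans (le_of_eq ?_)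
    rw [sum_const, card_range, nsmul_eq_mul]
  have s5 := inn_small p hp
  have s6 := inn_I X
  rw [← hI] at s6
  have hlp : 0 ≤ Real.log (p : ℝ) := Real.log_natCast_nonneg p
  have hLL : 1 ≤ LL X := by
    have h1 : 0 ≤ Real.log (X : ℝ) := Real.log_natCast_nonneg X
    have h2 : 0 ≤ Real.log (1 + Real.log X) := Real.log_nonneg (by linarith)
    unfold LL
    linarith
  calc ∑ q ∈ (Icc 1 X).filter (fun q => q.Prime ∧ q % p = 1), 1 / (q : ℝ)
      ≤ (1 + 5 * Real.log p) / p + I * (81 / p) := by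
        refine s1.trans ((s2 _ _).trans ?_)
        exact add_le_add s5 (s3.trans s4)
    _ = (1 + 5 * Real.log p + I * 81) / p := by ring
    _ ≤ 244 * (LL X + Real.log p) / p := by
        refine div_le_div_of_nonneg_right ?_ hpR.le
        nlinarith

end Pool.Agent.H69.CP
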