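import Pool.Agent.H69.CP.Bsh
import Pool.Agent.H69.CP.Rgh

/-!
[H69 CP SHI] Cyclic numbers in short intervals: `(x, x+y]` contains at least `c2 y / log x` of them if `y ≥ C2 √x (log x)^2`.
-/

namespace Pool.Agent.H69.CP

open Finset Classical Filter

theorem cyc_short : ∃ c2 C2 : ℝ, 0 < c2 ∧ 1 ≤ C2 ∧ ∃ x0 : ℕ, 20 ≤ x0 ∧ ∀ x y : ℕ, x0 ≤ x →
    C2 * Real.sqrt x * Real.log x ^ 2 ≤ y → y ≤ x →
    c2 * y / Real.log x ≤ (((Ioc x (x + y)).filter CY.IsCyclicNumber).card : ℝ) := by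
  obtain ⟨a, c1, ha, ha1, hc1, h0, h03, hr⟩ := rough_block
  have t1 : Tendsto (fun x : ℕ => (x : ℝ)) atTop atTop := tendsto_natCast_atTop_atTop
  have e1 : ∀ᶠ x : ℕ in atTop, Real.log x ^ 2 ≤ (c1 / 24) * (x : ℝ) ^ (a / 2) := by
    have h := (isLittleO_log_rpow_rpow_atTop (2 : ℝ) (show (0 : ℝ) < a / 2 by positivity)).def
      (show (0 : ℝ) < c1 / 24 by positivity)
    filter_upwards [t1.eventually h, eventually_ge_atTop 3] with x hx hx3
    have hx3' : (3 : ℝ) ≤ x := by exact_mod_cast hx3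
    have hl : 0 ≤ Real.log x := Real.log_nonneg (by linarith)
    rw [Real.norm_eq_abs, Real.norm_eq_abs, abs_of_nonneg (by positivity), abs_of_nonneg (by positivity)] at hx
    rw [← Real.rpow_natCast]
    exact_mod_cast hx
  have e2 : ∀ᶠ x : ℕ in atTop, (h0 : ℝ) ^ 2 ≤ x := t1.eventually_ge_atTop _
  obtain ⟨x1, hx1⟩ := eventually_atTop.1 (e1.and e2)
  refine ⟨c1 / 2, 1 + 18 / c1, by positivity, ?_, max x1 100, by have := le_max_right x1 100; omega, ?_⟩
  · have : 0 < 18 / c1 := by positivity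
    linarith
  intro x y hx hy hyx
  obtain ⟨g1, g2⟩ := hx1 x (le_trans (le_max_left _ _) hx)
  have hx100 : 100 ≤ x := le_trans (le_max_right _ _) hx
  have hxR : (100 : ℝ) ≤ x := by exact_mod_cast hx100
  have hx0 : (0 : ℝ) < x := by linarith
  set L := Real.log x with hL
  have hL3 : 3 ≤ L := by
    rw [hL, Real.le_log_iff_exp_le hx0]
    have h1 : Real.exp 3 = Real.exp 1 ^ 3 := by rw [← Real.exp_nat_mul]; norm_num
    have h2 := Real.exp_one_lt_d9
    rw [h1]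
    have h3 : Real.exp 1 ^ 3 ≤ 2.7182818286 ^ 3 := pow_le_pow_left₀ (Real.exp_pos _).le h2.le 3
    have h4 : (2.7182818286 : ℝ) ^ 3 ≤ 100 := by norm_num
    linarith
  have hs0 : 0 ≤ Real.sqrt x := Real.sqrt_nonneg _
  have hs1 : 1 ≤ Real.sqrt x := Real.one_le_sqrt.2 (by linarith)
  have hy1 : Real.sqrt x ≤ y := by
    refine le_trans ?_ hy
    have h1 : 1 ≤ 1 + 18 / c1 := by
      have : 0 < 18 / c1 := by positivity
      linarith
    have h2 : 1 ≤ L ^ 2 := by nlinarith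
    calc Real.sqrt x = 1 * Real.sqrt x * 1 := by ring
      _ ≤ (1 + 18 / c1) * Real.sqrt x * L ^ 2 := by gcongr
  have hy2 : 18 / c1 * Real.sqrt x * L ^ 2 ≤ y := by
    refine le_trans ?_ hy
    have : 0 ≤ Real.sqrt x * L ^ 2 := by positivity
    nlinarith
  have hyR : (1 : ℝ) ≤ y := hs1.trans hy1
  have hy0 : (0 : ℝ) < y := by linarith
  have hyh : h0 ≤ y := by
    have h1 : (h0 : ℝ) ≤ Real.sqrt x := Real.le_sqrt_of_sq_le g2
    exact_mod_cast h1.trans hy1
  have hlogy0 : 0 < Real.log y := by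
    apply Real.log_pos
    have : (3 : ℝ) ≤ y := by exact_mod_cast h03.trans hyh
    linarith
  have hlogy : Real.log y ≤ L := Real.log_le_log hy0 (by exact_mod_cast hyx)
  -- rough numbers
  have hR := hr y hyh x
  have hR2 : c1 * y / L ≤ (((Ioc x (x + y)).filter fun m => Rough ((y : ℝ) ^ a) m).card : ℝ) := by
    refine le_trans ?_ hR
    gcongr
  -- bad numbers
  have hw1 : (1 : ℝ) ≤ (y : ℝ) ^ a := Real.one_le_rpow hyR ha.le
  have hB := bad_short x y ((y : ℝ) ^ a) hw1 (by omega) hyx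
  set S := Nat.sqrt (2 * x) with hS
  have hSle : (S : ℝ) ≤ 3 / 2 * Real.sqrt x := by
    have h1 : (S : ℝ) ^ 2 ≤ 2 * x := by
      have := Nat.sqrt_le' (2 * x)
      rw [← hS] at this
      exact_mod_cast this
    have h2 : (S : ℝ) ^ 2 ≤ (3 / 2 * Real.sqrt x) ^ 2 := by
      rw [mul_pow, Real.sq_sqrt hx0.le]
      linarith
    exact le_of_sq_le_sq h2 (by positivity)
  have hS1 : 1 ≤ S := by
    rw [hS, Nat.le_sqrt]; omega
  have hlogS : Real.log S ≤ L := by
    apply Real.log_le_log (by exact_mod_cast hS1)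
    have h1 : Real.sqrt x * Real.sqrt x = x := Real.mul_self_sqrt hx0.le
    have h2 : (10 : ℝ) ≤ Real.sqrt x := Real.le_sqrt_of_sq_le (by norm_num; linarith)
    nlinarith
  have hlogS0 : 0 ≤ Real.log S := Real.log_nonneg (by exact_mod_cast hS1)
  have hya : (24 / c1) * L ^ 2 ≤ (y : ℝ) ^ a := by
    have h1 : (x : ℝ) ^ (a / 2) = Real.sqrt x ^ a := by
      rw [Real.sqrt_eq_rpow, ← Real.rpow_mul hx0.le]
      congr 1
      ring
    have h2 : Real.sqrt x ^ a ≤ (y : ℝ) ^ a := Real.rpow_le_rpow hs0 hy1 ha.le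
    rw [h1] at g1
    have h3 : (24 / c1) * L ^ 2 ≤ (24 / c1) * (c1 / 24 * Real.sqrt x ^ a) := by gcongr
    have h4 : (24 / c1) * (c1 / 24 * Real.sqrt x ^ a) = Real.sqrt x ^ a := by field_simp
    linarith
  have hB2 : (((Ioc x (x + y)).filter fun m => ¬ CY.IsCyclicNumber m ∧ Rough ((y : ℝ) ^ a) m).card : ℝ) ≤
      c1 / 2 * (y / L) := by
    refine hB.trans ?_
    have h1 : 3 + 2 * Real.log S ≤ 3 * L := by linarith
    have h2 : 2 * (y : ℝ) / (y : ℝ) ^ a ≤ c1 / 12 * (y / L ^ 2) := by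
      rw [div_le_iff₀ (by linarith)]
      have h5 : c1 / 12 * (y / L ^ 2) * ((24 / c1) * L ^ 2) = 2 * y := by field_simp; ring
      have h6 : 0 ≤ c1 / 12 * (y / L ^ 2) := by positivity
      calc 2 * (y : ℝ) = c1 / 12 * (y / L ^ 2) * ((24 / c1) * L ^ 2) := h5.symm
        _ ≤ c1 / 12 * (y / L ^ 2) * (y : ℝ) ^ a := by gcongr
    have h3 : (S : ℝ) ≤ c1 / 12 * (y / L ^ 2) := by
      refine hSle.trans ?_
      have h5 : Real.sqrt x ≤ c1 / 18 * (y / L ^ 2) := by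
        have h6 : c1 / 18 * (18 / c1 * Real.sqrt x * L ^ 2 / L ^ 2) = Real.sqrt x := by field_simp
        calc Real.sqrt x = c1 / 18 * (18 / c1 * Real.sqrt x * L ^ 2 / L ^ 2) := h6.symm
          _ ≤ c1 / 18 * (y / L ^ 2) := by gcongr
      linarith
    calc (3 + 2 * Real.log S) * (2 * y / (y : ℝ) ^ a + S)
        ≤ (3 * L) * (c1 / 12 * (y / L ^ 2) + c1 / 12 * (y / L ^ 2)) := by gcongr
      _ = c1 / 2 * (y / L) := by field_simp; ring
  have hsum : (((Ioc x (x + y)).filter fun m => Rough ((y : ℝ) ^ a) m).card : ℝ) ≤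
      (((Ioc x (x + y)).filter CY.IsCyclicNumber).card : ℝ) +
      (((Ioc x (x + y)).filter fun m => ¬ CY.IsCyclicNumber m ∧ Rough ((y : ℝ) ^ a) m).card : ℝ) := by
    have h1 : (Ioc x (x + y)).filter (fun m => Rough ((y : ℝ) ^ a) m) ⊆
        (Ioc x (x + y)).filter CY.IsCyclicNumber ∪
        (Ioc x (x + y)).filter (fun m => ¬ CY.IsCyclicNumber m ∧ Rough ((y : ℝ) ^ a) m) := by
      intro m hm
      rw [mem_filter] at hm
      rw [mem_union, mem_filter, mem_filter]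
      by_cases hc : CY.IsCyclicNumber m
      · exact Or.inl ⟨hm.1, hc⟩
      · exact Or.inr ⟨hm.1, hc, hm.2⟩
    exact_mod_cast (card_le_card h1).trans (card_union_le _ _)
  have e : c1 / 2 * y / L = c1 * y / L - c1 / 2 * (y / L) := by ring
  rw [e]
  linarith

end Pool.Agent.H69.CP
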